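import Mathlib

/-!
# Elimination for the planar component
-/

namespace Pool.Agent.PLC

variable {u1 u2 m m1 m2 W W1 p p1 p2 l1 l2 k0 : ℝ}

/-- second component of the normal equation -/
lemma alg_E9 (e7 : l2 * p - l1 * (l2 - l1) * u2 = l1 * u1 * p1 - p2 * W)
    (e8 : l2 * (-(m * p)) - l1 * (l2 - l1) * u1
      = l1 * u1 * (-(m1 * p + m * p1)) + (m2 * p + 2 * m1 * p1 + m * p2) * W) :
    -(l1 * (l2 - l1) * (u1 + m * u2)) = -(l1 * u1 * m1 * p) + W * (m2 * p + 2 * m1 * p1) := by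
  linear_combination e8 + m * e7

/-- the first order equation -/
lemma alg_T (hm : m1 ≠ 0)
    (e1 : l1 * u2 = l1 * u1 * m - m1 * W) (e10 : m2 * W + m1 * W1 = l1 * u1 * m1)
    (e9 : -(l1 * (l2 - l1) * (u1 + m * u2)) = -(l1 * u1 * m1 * p) + W * (m2 * p + 2 * m1 * p1))
    (f3 : (l2 - l1) * (W * (1 + m ^ 2)) + l1 * (p * (u2 - m * u1)) = k0)
    (f3' : (l2 - l1) * (W1 * (1 + m ^ 2) + 2 * W * m * m1)
      + l1 * (p1 * (u2 - m * u1) - p * m1 * u1) = 0) :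
    ((l2 - l1) * (W * (1 + m ^ 2)) + k0) * (W1 * (1 + m ^ 2) + 2 * W * m * m1)
      = l1 * (u1 + m * u2) * ((l2 - l1) * (W * (1 + m ^ 2)) - 2 * k0) := by
  have e11 : m1 * (2 * W * p1 - p * W1) = -(l1 * (l2 - l1) * (u1 + m * u2)) := by
    linear_combination -e9 - p * e10
  have e13 : 2 * W * (p1 * (u2 - m * u1)) - p * (u2 - m * u1) * W1
      = (l2 - l1) * (u1 + m * u2) * W := by
    have : m1 * (2 * W * (p1 * (u2 - m * u1)) - p * (u2 - m * u1) * W1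
      - (l2 - l1) * (u1 + m * u2) * W) = 0 := by
      linear_combination (u2 - m * u1) * e11 - (l2 - l1) * (u1 + m * u2) * e1
    rcases mul_eq_zero.1 this with h | h
    · exact absurd h hm
    · linarith
  have e15 : p * m1 * W = (l2 - l1) * (W * (1 + m ^ 2)) - k0 := by
    linear_combination p * e1 - f3
  have e16 : -2 * W * (l2 - l1) * (W1 * (1 + m ^ 2) + 2 * W * m * m1)
      + 2 * l1 * u1 * ((l2 - l1) * (W * (1 + m ^ 2)) - k0)
      + ((l2 - l1) * (W * (1 + m ^ 2)) - k0) * W1 = l1 * (l2 - l1) * (u1 + m * u2) * W := by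
    linear_combination l1 * e13 - 2 * W * f3' + W1 * f3 - 2 * l1 * u1 * e15
  linear_combination -(1 + m ^ 2) * e16 - 2 * m * ((l2 - l1) * (W * (1 + m ^ 2)) - k0) * e1

/-- the second order equation for `w` -/
lemma alg_E14 {w w1 w2 : ℝ} (hl : l2 - l1 ≠ 0)
    (e1 : l1 * u2 = l1 * u1 * m - m1 * W)
    (e7 : l2 * p - l1 * (l2 - l1) * u2 = l1 * u1 * p1 - p2 * W)
    (e9 : -(l1 * (l2 - l1) * (u1 + m * u2)) = -(l1 * u1 * m1 * p) + W * (m2 * p + 2 * m1 * p1))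
    (f3 : (l2 - l1) * w + l1 * (p * (u2 - m * u1)) = k0)
    (f3' : (l2 - l1) * w1 + l1 * (p1 * (u2 - m * u1) - p * m1 * u1) = 0)
    (f3'' : (l2 - l1) * w2 + l1 * (p2 * (u2 - m * u1) - 2 * p1 * m1 * u1
      - p * (m2 * u1 + m1)) = 0) :
    l1 * u1 * w1 - w2 * W = (l2 - l1) * w - k0 + l1 ^ 2 * (u1 ^ 2 + u2 ^ 2) := by
  have h : (l2 - l1) * (l1 * u1 * w1 - w2 * W
      - ((l2 - l1) * w - k0 + l1 ^ 2 * (u1 ^ 2 + u2 ^ 2))) = 0 := by
    linear_combination l1 * u1 * f3' - W * f3'' - (l2 - l1) * f3 + l1 * (u2 - m * u1) * e7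
      + l1 * u1 * e9 - l1 * p * e1
  rcases mul_eq_zero.1 h with h | h
  · exact absurd h hl
  · linarith

/-- the algebraic relation (A), with `t = (l2 - l1) w` and `k = - k0` -/
lemma alg_A {w w1 w2 N T t k : ℝ} (hw : w = W * (1 + m ^ 2)) (ht : t = (l2 - l1) * w) (hk : k = -k0)
    (e1 : l1 * u2 = l1 * u1 * m - m1 * W)
    (eT : ((l2 - l1) * w + k0) * w1 = l1 * (u1 + m * u2) * ((l2 - l1) * w - 2 * k0))
    (eT' : (l2 - l1) * w1 * w1 + ((l2 - l1) * w + k0) * w2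
      = l1 * (1 + m ^ 2 + m1 * u2) * ((l2 - l1) * w - 2 * k0)
        + l1 * (u1 + m * u2) * ((l2 - l1) * w1))
    (e14 : l1 * u1 * w1 - w2 * W = (l2 - l1) * w - k0 + l1 ^ 2 * (u1 ^ 2 + u2 ^ 2))
    (hN : N * (1 + m ^ 2) = l1 * (l2 - l1) * (u2 - m * u1) ^ 2)
    (hT : T * (1 + m ^ 2) = l1 * (l2 - l1) * (u1 + m * u2) ^ 2) :
    3 * k * l1 * (N * (t - k) ^ 2 + T * (2 * t ^ 2 + k ^ 2))
      = l1 * k * (2 * t + k) * (t - k) ^ 2 + l2 * (t + k) * (t - k) ^ 3 := by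
  have hS : (1 + m ^ 2) ≠ 0 := by positivity
  have hNT : N + T = l1 * (l2 - l1) * (u1 ^ 2 + u2 ^ 2) := by
    have : (1 + m ^ 2) * (N + T - l1 * (l2 - l1) * (u1 ^ 2 + u2 ^ 2)) = 0 := by
      linear_combination hN + hT
    rcases mul_eq_zero.1 this with h | h
    · exact absurd h hS
    · linarith
  set D := l2 - l1 with hD
  set q := u1 + m * u2 with hq
  have eT1 : (t - k) * w1 = l1 * q * (t + 2 * k) := by
    rw [ht, hk]; linear_combination eT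
  have eT2 : D * w1 * w1 + (t - k) * w2
      = l1 * (1 + m ^ 2 + m1 * u2) * (t + 2 * k) + l1 * q * (D * w1) := by
    rw [ht, hk]; linear_combination eT'
  have e14' : l1 * u1 * w1 - w2 * W = t + k + l1 ^ 2 * (u1 ^ 2 + u2 ^ 2) := by
    rw [ht, hk]; linear_combination e14
  have s1 : (t - k) ^ 3 * (l1 * u1 * w1) = l1 * u1 * (t - k) ^ 2 * (l1 * q * (t + 2 * k)) := by
    linear_combination (l1 * u1 * (t - k) ^ 2) * eT1
  have s2 : (t - k) ^ 3 * (w2 * W) = (t - k) ^ 2 * W * l1 * (1 + m ^ 2 + m1 * u2) * (t + 2 * k)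
      - 3 * k * W * D * l1 ^ 2 * q ^ 2 * (t + 2 * k) := by
    linear_combination (W * (t - k) ^ 2) * eT2 + (l1 * q * D * W * (t - k)) * eT1
      - (W * D * ((t - k) * w1 + l1 * q * (t + 2 * k))) * eT1
  have s3 : W * (1 + m ^ 2 + m1 * u2) = w - l1 * (u2 - m * u1) * u2 := by
    rw [hw]; linear_combination u2 * e1
  have s4 : l1 * u1 * q + l1 * (u2 - m * u1) * u2 = l1 * (u1 ^ 2 + u2 ^ 2) := by
    rw [hq]; ring
  have s5 : l1 * (t + 2 * k) * (t - k) ^ 2 * (l1 * (u1 ^ 2 + u2 ^ 2) - w)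
      + 3 * k * W * D * l1 ^ 2 * q ^ 2 * (t + 2 * k)
      = (t - k) ^ 3 * (t + k + l1 ^ 2 * (u1 ^ 2 + u2 ^ 2)) := by
    linear_combination (t - k) ^ 3 * e14' - s1 + s2
      + (l1 * (t - k) ^ 2 * (t + 2 * k)) * s3 - (l1 * (t + 2 * k) * (t - k) ^ 2) * s4
  have s6 : W * D * l1 * q ^ 2 = w * T := by
    rw [hw]; linear_combination -W * hT
  have s7 : D * w = t := ht.symm
  have s8 : l1 * (t + 2 * k) * (t - k) ^ 2 * (N + T - t) + 3 * k * l1 * (t * T) * (t + 2 * k)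
      = (t - k) ^ 3 * (D * (t + k) + l1 * (N + T)) := by
    linear_combination D * s5 + (l1 * (t + 2 * k) * (t - k) ^ 2) * hNT
      + (l1 * (t + 2 * k) * (t - k) ^ 2) * s7 - (3 * k * l1 * (t + 2 * k) * T) * s7
      - (3 * k * l1 * (t + 2 * k) * D) * s6 - ((t - k) ^ 3 * l1) * hNT
  rw [hD] at s8
  linear_combination s8

lemma alg_N {t N N1 : ℝ} (ht : t = (l2 - l1) * (W * (1 + m * m)))
    (e1 : l1 * u2 = l1 * u1 * m - m1 * W)
    (hN : N * (1 + m * m) = l1 * (l2 - l1) * ((u2 - m * u1) * (u2 - m * u1)))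
    (hN' : N1 * (1 + m * m) + N * (2 * m * m1)
      = l1 * (l2 - l1) * (2 * (u2 - m * u1) * (-(m1 * u1)))) :
    t * N1 = 2 * (l1 * (l2 - l1) * (u1 + m * u2)) * N := by
  have hS : (1 + m * m) ≠ 0 := by nlinarith [mul_self_nonneg m]
  have : (1 + m * m) * (t * N1 - 2 * (l1 * (l2 - l1) * (u1 + m * u2)) * N) = 0 := by
    rw [ht]
    linear_combination ((l2 - l1) * W * (1 + m * m)) * hN'
      - (2 * (l2 - l1) * (1 + m * m) * (l1 * (l2 - l1) * (u2 - m * u1) * u1 + N * m)) * e1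
      + (2 * l1 * (l2 - l1) * (u2 - m * u1) * m - 2 * l1 * (l2 - l1) * (u1 + m * u2)) * hN
  rcases mul_eq_zero.1 this with h | h
  · exact absurd h hS
  · linarith

lemma alg_TT {t N T T1 : ℝ} (ht : t = (l2 - l1) * (W * (1 + m * m)))
    (e1 : l1 * u2 = l1 * u1 * m - m1 * W)
    (hN : N * (1 + m * m) = l1 * (l2 - l1) * ((u2 - m * u1) * (u2 - m * u1)))
    (hT : T * (1 + m * m) = l1 * (l2 - l1) * ((u1 + m * u2) * (u1 + m * u2)))
    (hT' : T1 * (1 + m * m) + T * (2 * m * m1)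
      = l1 * (l2 - l1) * (2 * (u1 + m * u2) * (1 + m1 * u2 + m * m))) :
    t * T1 = 2 * (l1 * (l2 - l1) * (u1 + m * u2)) * (t - N) := by
  have hS : (1 + m * m) ≠ 0 := by nlinarith [mul_self_nonneg m]
  have : (1 + m * m) * (t * T1 - 2 * (l1 * (l2 - l1) * (u1 + m * u2)) * (t - N)) = 0 := by
    rw [ht]
    linear_combination ((l2 - l1) * W * (1 + m * m)) * hT'
      + (2 * (l2 - l1) * (1 + m * m) * (l1 * (l2 - l1) * (u1 + m * u2) * u2 - T * m)) * e1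
      + (2 * (l1 * (l2 - l1)) * m * (u2 - m * u1)) * hT
      + (2 * (l1 * (l2 - l1)) * (u1 + m * u2)) * hN
  rcases mul_eq_zero.1 this with h | h
  · exact absurd h hS
  · linarith

end Pool.Agent.PLC
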