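import Pool.Agent.PLC.Der

/-!
# The final elimination
-/

open scoped Manifold ContDiff Topology

namespace Pool.Agent.PLC

open Pool.Agent.Lib_helper91.CMC2 Pool.Agent.Lib_helper25.DA

section
variable {n m : ℕ} {V : Set (E n)} {κ : Fin n} {u t N T r : E n → ℝ} {k b : ℝ}

lemma core (hV : IsOpen V) (hne : V.Nonempty) (st : SV V t) (sN : SV V N) (sT : SV V T)
    (hk : k ≠ 0)
    (ht : ∀ z ∈ V, (t z - k) * der κ u t z = r z * (t z + 2 * k))
    (hN : ∀ z ∈ V, t z * der κ u N z = 2 * r z * N z)
    (hT : ∀ z ∈ V, t z * der κ u T z = 2 * r z * (t z - N z))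
    (hr : ∀ z ∈ V, r z ≠ 0) (htk : ∀ z ∈ V, t z ≠ k) (ht0 : ∀ z ∈ V, t z ≠ 0)
    (hA : ∀ z ∈ V, 3 * k * (N z * ((t z - k) * (t z - k)) + T z * (2 * (t z * t z) + k * k))
      = k * (2 * t z + k) * ((t z - k) * (t z - k))
        + b * (t z + k) * ((t z - k) * ((t z - k) * (t z - k)))) : False := by
  -- (B)
  have hB : ∀ z ∈ V, 12 * k * T z * t z * (t z + 2 * k) = (t z - k) ^ 2 *
      (-6 * k * (t z - k) + b * (t z + 2 * k) * (4 * t z + 2 * k)) := by
    intro z hz
    have h1 := der_congr_on (k := κ) (u := u) hV hA hz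
    have e1 := st z hz
    have e2 := sN z hz
    have e3 := sT z hz
    simp (disch := fun_prop) only [der_add, der_mul, der_sub, der_const] at h1
    have a1 := ht z hz
    have a2 := hN z hz
    have a3 := hT z hz
    set t' := der κ u t z
    set N' := der κ u N z
    set T' := der κ u T z
    have h2 : r z * t z * (12 * k * T z * t z * (t z + 2 * k) - (t z - k) ^ 2 *
      (-6 * k * (t z - k) + b * (t z + 2 * k) * (4 * t z + 2 * k))) = 0 := by
      linear_combination (t z * (t z - k)) * h1 - 3 * k * ((t z - k) ^ 3 * a2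
        + (2 * N z * t z * (t z - k) + 4 * T z * t z ^ 2) * a1
        + (t z - k) * (2 * t z ^ 2 + k ^ 2) * a3)
        + t z * (k * (2 * (t z - k) ^ 2 + 2 * (2 * t z + k) * (t z - k))
          + b * ((t z - k) ^ 3 + 3 * (t z + k) * (t z - k) ^ 2)) * a1
    rcases mul_eq_zero.1 h2 with h3 | h3
    · rcases mul_eq_zero.1 h3 with h4 | h4
      · exact absurd h4 (hr z hz)
      · exact absurd h4 (ht0 z hz)
    · linarith
  -- the polynomial `R2`
  have hR : ∀ z ∈ V, 12 * k * (t z * ((t z + 2 * k) * N z)) =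
      4 * (t z * (t z + 2 * k)) * (k * (2 * t z + k) + b * (t z * t z) - b * (k * k))
        - (2 * (t z * t z) + k * k) * (-6 * k * (t z - k) + b * (t z + 2 * k) * (4 * t z + 2 * k))
      := by
    intro z hz
    have h1 := hA z hz
    have h2 := hB z hz
    have h3 : (t z - k) ^ 2 ≠ 0 := pow_ne_zero 2 (sub_ne_zero.2 (htk z hz))
    have h4 : (t z - k) ^ 2 * (12 * k * (t z * ((t z + 2 * k) * N z)) -
      (4 * (t z * (t z + 2 * k)) * (k * (2 * t z + k) + b * (t z * t z) - b * (k * k))
        - (2 * (t z * t z) + k * k) * (-6 * k * (t z - k)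
          + b * (t z + 2 * k) * (4 * t z + 2 * k)))) = 0 := by
      linear_combination (4 * t z * (t z + 2 * k)) * h1 - (2 * t z ^ 2 + k ^ 2) * h2
    rcases mul_eq_zero.1 h4 with h5 | h5
    · exact absurd h5 h3
    · linarith
  -- the linear relation
  have hL : ∀ z ∈ V, 5 * (1 + b) * t z + (10 * b - 26) * k = 0 := by
    intro z hz
    have h1 := der_congr_on (k := κ) (u := u) hV hR hz
    have e1 := st z hz
    have e2 := sN z hz
    simp (disch := fun_prop) only [der_add, der_mul, der_sub, der_const] at h1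
    have a1 := ht z hz
    have a2 := hN z hz
    have h0 := hR z hz
    set t' := der κ u t z
    set N' := der κ u N z
    have h2 : r z * (2 * k * (2 * t z ^ 2 + k ^ 2) *
        (5 * (1 + b) * t z + (10 * b - 26) * k)) = 0 := by
      linear_combination (t z - k) * h1 - 12 * k * ((2 * t z + 2 * k) * N z * a1
        + (t z + 2 * k) * (t z - k) * a2)
        + (4 * (2 * t z + 2 * k) * (k * (2 * t z + k) + b * t z ^ 2 - b * k ^ 2)
          + 4 * (t z ^ 2 + 2 * k * t z) * (2 * k + 2 * b * t z)
          - 4 * t z * (-6 * k * (t z - k) + b * (t z + 2 * k) * (4 * t z + 2 * k))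
          - (2 * t z ^ 2 + k ^ 2) * (-6 * k + b * (4 * t z + 2 * k) + b * (t z + 2 * k) * 4)) * a1
        - r z * 4 * h0
    have h3 : (2 * k * (2 * t z ^ 2 + k ^ 2)) ≠ 0 :=
      mul_ne_zero (mul_ne_zero two_ne_zero hk) (by positivity)
    rcases mul_eq_zero.1 h2 with h4 | h4
    · exact absurd h4 (hr z hz)
    · rcases mul_eq_zero.1 h4 with h5 | h5
      · exact absurd h5 h3
      · exact h5
  -- conclusion
  obtain ⟨z, hz⟩ := hne
  have h1 := der_congr_on (k := κ) (u := u) hV hL hz
  have e1 := st z hz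
  simp (disch := fun_prop) only [der_add, der_mul, der_const] at h1
  have a1 := ht z hz
  have h2 := hL z hz
  set t' := der κ u t z
  have h3 : (1 + b) * t' = 0 := by linarith
  rcases mul_eq_zero.1 h3 with h4 | h4
  · have hb : b = -1 := by linarith
    rw [hb] at h2
    exact hk (by linarith)
  · rw [h4, mul_zero] at a1
    rcases mul_eq_zero.1 a1.symm with h5 | h5
    · exact hr z hz h5
    · have : t z = -2 * k := by linarith
      rw [this] at h2
      exact hk (by linarith)

end

end Pool.Agent.PLC
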