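import Pool.Agent.PLC.Der
import Pool.Agent.PLC.Alg

/-!
# Local data of a planar component
-/

open scoped Manifold ContDiff Topology

namespace Pool.Agent.PLC

open Pool.Agent.Lib_helper91.CMC2 Pool.Agent.Lib_helper25.DA

section
variable {n m : ℕ} {X : E n → E m} {z : E n}

lemma gin_pos (h : Function.Injective (fderiv ℝ X z)) {u : E n → ℝ} {j : Fin n}
    (hj : pd j u z ≠ 0) : 0 < gin X u u z := by
  have h1 := (metric_posDef h).inv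
  set v : Fin n → ℝ := fun i => pd i u z with hv
  have hv0 : v ≠ 0 := fun h0 => hj (congrFun h0 j)
  have h2 := h1.dotProduct_mulVec_pos hv0
  have h3 : star v ⬝ᵥ ((metric X z)⁻¹.mulVec v) = gin X u u z := by
    unfold gin
    simp only [dotProduct, Matrix.mulVec, Pi.star_apply, star_trivial, hv]
    refine Finset.sum_congr rfl fun i _ => ?_
    rw [Finset.mul_sum]
    refine Finset.sum_congr rfl fun j _ => by ring
  rw [h3] at h2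
  exact h2

end

/-- Data of a planar component on an open set: `(u1, u2)` is the planar component, `(Y1, Y2)` the
projection of `Δ x` to the plane. -/
structure PD {n m : ℕ} (V : Set (E n)) (X : E n → E m) (κ : Fin n) (u1 u2 Y1 Y2 : E n → ℝ)
    (l1 l2 k0 : ℝ) : Prop where
  op : IsOpen V
  sX : ∀ z ∈ V, ContDiffAt ℝ ∞ X z
  imm : ∀ z ∈ V, Function.Injective (fderiv ℝ X z)
  su1 : SV V u1
  su2 : SV V u2
  sY1 : SV V Y1
  sY2 : SV V Y2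
  eu1 : ∀ z ∈ V, lap X u1 z = l1 * u1 z
  eu2 : ∀ z ∈ V, lap X u2 z = l1 * u2 z
  eY1 : ∀ z ∈ V, lap X Y1 z = l2 * Y1 z - l1 * (l2 - l1) * u1 z
  eY2 : ∀ z ∈ V, lap X Y2 z = l2 * Y2 z - l1 * (l2 - l1) * u2 z
  ort : ∀ z ∈ V, ∀ j, Y1 z * pd j u1 z + Y2 z * pd j u2 z = 0
  par : ∀ z ∈ V, ∀ i j, pd i u1 z * pd j u2 z = pd j u1 z * pd i u2 z
  en : ∀ z ∈ V, (l2 - l1) * (gin X u1 u1 z + gin X u2 u2 z)
    + l1 * (Y1 z * u1 z + Y2 z * u2 z) = k0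
  nz : ∀ z ∈ V, pd κ u1 z ≠ 0
  ne : l1 ≠ l2
  ne1 : l1 ≠ 0
  ne2 : l2 ≠ 0

namespace PD
variable {n m : ℕ} {V : Set (E n)} {X : E n → E m} {κ : Fin n} {u1 u2 Y1 Y2 : E n → ℝ}
  {l1 l2 k0 : ℝ} {z : E n}

lemma mono (h : PD V X κ u1 u2 Y1 Y2 l1 l2 k0) {V' : Set (E n)} (hV : IsOpen V') (hs : V' ⊆ V) :
    PD V' X κ u1 u2 Y1 Y2 l1 l2 k0 :=
  ⟨hV, fun z hz => h.sX z (hs hz), fun z hz => h.imm z (hs hz), h.su1.mono hs, h.su2.mono hs,
    h.sY1.mono hs, h.sY2.mono hs, fun z hz => h.eu1 z (hs hz), fun z hz => h.eu2 z (hs hz),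
    fun z hz => h.eY1 z (hs hz), fun z hz => h.eY2 z (hs hz), fun z hz => h.ort z (hs hz),
    fun z hz => h.par z (hs hz), fun z hz => h.en z (hs hz), fun z hz => h.nz z (hs hz),
    h.ne, h.ne1, h.ne2⟩

/-- the function `w = |du|²` -/
noncomputable def w (X : E n → E m) (κ : Fin n) (u1 u2 : E n → ℝ) : E n → ℝ := fun z =>
  gin X u1 u1 z * (1 + der κ u1 u2 z * der κ u1 u2 z)

lemma dep2 (h : PD V X κ u1 u2 Y1 Y2 l1 l2 k0) : Dep V κ u1 u2 := by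
  intro z hz j
  have h1 := h.par z hz κ j
  have h2 := h.nz z hz
  unfold der
  field_simp
  linarith

lemma sM (h : PD V X κ u1 u2 Y1 Y2 l1 l2 k0) : SV V (der κ u1 u2) := h.su2.derv h.su1 h.nz

lemma sM1 (h : PD V X κ u1 u2 Y1 Y2 l1 l2 k0) : SV V (der κ u1 (der κ u1 u2)) :=
  h.sM.derv h.su1 h.nz

lemma depM (h : PD V X κ u1 u2 Y1 Y2 l1 l2 k0) : Dep V κ u1 (der κ u1 u2) :=
  h.dep2.derv h.op h.su2 h.su1 h.nz

lemma depM1 (h : PD V X κ u1 u2 Y1 Y2 l1 l2 k0) : Dep V κ u1 (der κ u1 (der κ u1 u2)) :=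
  h.depM.derv h.op h.sM h.su1 h.nz

lemma sW (h : PD V X κ u1 u2 Y1 Y2 l1 l2 k0) : SV V (gin X u1 u1) := fun z hz =>
  gin_smooth (h.sX z hz) (h.imm z hz) (h.su1 z hz) (h.su1 z hz)

lemma Wpos (h : PD V X κ u1 u2 Y1 Y2 l1 l2 k0) (hz : z ∈ V) : 0 < gin X u1 u1 z :=
  gin_pos (h.imm z hz) (h.nz z hz)

lemma gin2 (h : PD V X κ u1 u2 Y1 Y2 l1 l2 k0) (hz : z ∈ V) :
    gin X u2 u2 z = der κ u1 u2 z * der κ u1 u2 z * gin X u1 u1 z := by
  unfold gin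
  rw [Finset.mul_sum]
  refine Finset.sum_congr rfl fun i _ => ?_
  rw [Finset.mul_sum]
  refine Finset.sum_congr rfl fun j _ => ?_
  rw [h.dep2 z hz i, h.dep2 z hz j]; ring

lemma w_eq (h : PD V X κ u1 u2 Y1 Y2 l1 l2 k0) (hz : z ∈ V) :
    gin X u1 u1 z + gin X u2 u2 z = w X κ u1 u2 z := by
  rw [h.gin2 hz]; unfold w; ring

/-- `Y1 = - m Y2` -/
lemma Y1_eq (h : PD V X κ u1 u2 Y1 Y2 l1 l2 k0) (hz : z ∈ V) :
    Y1 z = -1 * (der κ u1 u2 z * Y2 z) := by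
  have h1 := h.ort z hz κ
  have h2 := h.nz z hz
  have h3 : pd κ u1 z * (Y1 z + der κ u1 u2 z * Y2 z) = 0 := by
    have h4 := h.dep2 z hz κ
    rw [h4] at h1
    linear_combination h1
  rcases mul_eq_zero.1 h3 with h4 | h4
  · exact absurd h4 h2
  · linarith

/-- `l1 u2 = l1 u1 m - m' W` -/
lemma e1 (h : PD V X κ u1 u2 Y1 Y2 l1 l2 k0) (hz : z ∈ V) :
    l1 * u2 z = l1 * u1 z * der κ u1 u2 z - der κ u1 (der κ u1 u2) z * gin X u1 u1 z := by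
  have h1 := lap_dep (X := X) h.op h.dep2 h.su2 h.su1 h.nz hz
  rw [h.eu1 z hz, h.eu2 z hz] at h1
  linear_combination h1

lemma f3 (h : PD V X κ u1 u2 Y1 Y2 l1 l2 k0) (hz : z ∈ V) :
    (l2 - l1) * w X κ u1 u2 z + l1 * (Y2 z * (u2 z - der κ u1 u2 z * u1 z)) = k0 := by
  have h1 := h.en z hz
  rw [h.w_eq hz, h.Y1_eq hz] at h1
  linear_combination h1

end PD

end Pool.Agent.PLC
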