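import Pool.Agent.Lib_helper25.DA.Geo

/-!
# Functions of one variable on an immersed submanifold

`u` is a smooth function with `∂_k u ≠ 0` on the open set `V`; `der k u f = ∂_k f / ∂_k u`, and
`Dep V k u f` says that `df = (der k u f) du` on `V`.
-/

open scoped Manifold ContDiff Topology

namespace Pool.Agent.PLC

open Pool.Agent.Lib_helper91.CMC2 Pool.Agent.Lib_helper25.DA

/-- smooth at the points of `V` -/
def SV {n : ℕ} (V : Set (E n)) (f : E n → ℝ) : Prop := ∀ z ∈ V, ContDiffAt ℝ ∞ f z

/-- the derivative of `f` with respect to the function `u` -/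
noncomputable def der {n : ℕ} (k : Fin n) (u f : E n → ℝ) : E n → ℝ :=
  fun z => pd k f z / pd k u z

/-- `df = (der k u f) du` on `V` -/
def Dep {n : ℕ} (V : Set (E n)) (k : Fin n) (u f : E n → ℝ) : Prop :=
  ∀ z ∈ V, ∀ j, pd j f z = der k u f z * pd j u z

section
variable {n m : ℕ} {V : Set (E n)} {k : Fin n} {u f g : E n → ℝ} {z : E n}

lemma SV.mono {V' : Set (E n)} (h : SV V f) (hV : V' ⊆ V) : SV V' f := fun z hz => h z (hV hz)

lemma SV.add (hf : SV V f) (hg : SV V g) : SV V (fun w => f w + g w) :=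
  fun z hz => (hf z hz).add (hg z hz)

lemma SV.sub (hf : SV V f) (hg : SV V g) : SV V (fun w => f w - g w) :=
  fun z hz => (hf z hz).sub (hg z hz)

lemma SV.mul (hf : SV V f) (hg : SV V g) : SV V (fun w => f w * g w) :=
  fun z hz => (hf z hz).mul (hg z hz)

lemma SV.const (c : ℝ) : SV V (fun _ => c) := fun _ _ => contDiffAt_const

lemma SV.pdv (hf : SV V f) (j : Fin n) : SV V (pd j f) := fun z hz => pd_smooth (hf z hz) j

lemma SV.derv (hf : SV V f) (hu : SV V u) (h0 : ∀ z ∈ V, pd k u z ≠ 0) : SV V (der k u f) :=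
  fun z hz => (pd_smooth (hf z hz) k).div (pd_smooth (hu z hz) k) (h0 z hz)

lemma pd_congr_on (hV : IsOpen V) (h : ∀ w ∈ V, f w = g w) (hz : z ∈ V) (j : Fin n) :
    pd j f z = pd j g z :=
  pd_congr (by filter_upwards [hV.mem_nhds hz] with w hw using h w hw) j

lemma der_congr_on (hV : IsOpen V) (h : ∀ w ∈ V, f w = g w) (hz : z ∈ V) :
    der k u f z = der k u g z := by
  unfold der; rw [pd_congr_on hV h hz]

lemma pd_mul' (hf : ContDiffAt ℝ ∞ f z) (hg : ContDiffAt ℝ ∞ g z) (j : Fin n) :
    pd j (fun w => f w * g w) z = pd j f z * g z + f z * pd j g z := by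
  have := pd_mul (diff_of hf) (diff_of hg) j
  rw [this]; ring

lemma pd_add' (hf : ContDiffAt ℝ ∞ f z) (hg : ContDiffAt ℝ ∞ g z) (j : Fin n) :
    pd j (fun w => f w + g w) z = pd j f z + pd j g z := pd_add (diff_of hf) (diff_of hg) j

lemma pd_sub' (hf : ContDiffAt ℝ ∞ f z) (hg : ContDiffAt ℝ ∞ g z) (j : Fin n) :
    pd j (fun w => f w - g w) z = pd j f z - pd j g z := by
  unfold pd; rw [fderiv_fun_sub (diff_of hf) (diff_of hg)]; simp

lemma der_mul (hf : ContDiffAt ℝ ∞ f z) (hg : ContDiffAt ℝ ∞ g z) :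
    der k u (fun w => f w * g w) z = der k u f z * g z + f z * der k u g z := by
  unfold der; rw [pd_mul' hf hg]; ring

lemma der_add (hf : ContDiffAt ℝ ∞ f z) (hg : ContDiffAt ℝ ∞ g z) :
    der k u (fun w => f w + g w) z = der k u f z + der k u g z := by
  unfold der; rw [pd_add' hf hg]; ring

lemma der_sub (hf : ContDiffAt ℝ ∞ f z) (hg : ContDiffAt ℝ ∞ g z) :
    der k u (fun w => f w - g w) z = der k u f z - der k u g z := by
  unfold der; rw [pd_sub' hf hg]; ring

lemma der_const (c : ℝ) : der k u (fun _ => c) z = 0 := by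
  unfold der; rw [pd_const]; simp

lemma der_self (h : pd k u z ≠ 0) : der k u u z = 1 := by
  unfold der; exact div_self h

lemma Dep.mono {V' : Set (E n)} (h : Dep V k u f) (hV : V' ⊆ V) : Dep V' k u f :=
  fun z hz => h z (hV hz)

lemma Dep.self (h0 : ∀ z ∈ V, pd k u z ≠ 0) : Dep V k u u := by
  intro z hz j
  rw [der_self (h0 z hz), one_mul]

lemma Dep.const (c : ℝ) : Dep V k u (fun _ => c) := by
  intro z hz j
  rw [der_const, pd_const, zero_mul]

lemma Dep.add (hf : Dep V k u f) (hg : Dep V k u g) (sf : SV V f) (sg : SV V g) :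
    Dep V k u (fun w => f w + g w) := by
  intro z hz j
  rw [pd_add' (sf z hz) (sg z hz), der_add (sf z hz) (sg z hz), hf z hz j, hg z hz j]; ring

lemma Dep.sub (hf : Dep V k u f) (hg : Dep V k u g) (sf : SV V f) (sg : SV V g) :
    Dep V k u (fun w => f w - g w) := by
  intro z hz j
  rw [pd_sub' (sf z hz) (sg z hz), der_sub (sf z hz) (sg z hz), hf z hz j, hg z hz j]; ring

lemma Dep.mul (hf : Dep V k u f) (hg : Dep V k u g) (sf : SV V f) (sg : SV V g) :
    Dep V k u (fun w => f w * g w) := by
  intro z hz j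
  rw [pd_mul' (sf z hz) (sg z hz), der_mul (sf z hz) (sg z hz), hf z hz j, hg z hz j]; ring

lemma Dep.congr (hV : IsOpen V) (h : ∀ w ∈ V, f w = g w) (hf : Dep V k u f) : Dep V k u g := by
  intro z hz j
  rw [← pd_congr_on hV h hz, ← der_congr_on hV h hz, hf z hz j]

/-- if `f g` and `g ≠ 0` are functions of `u`, so is `f` -/
lemma Dep.of_mul (hfg : Dep V k u (fun w => f w * g w)) (hg : Dep V k u g) (sf : SV V f)
    (sg : SV V g) (h0 : ∀ z ∈ V, g z ≠ 0) : Dep V k u f := by
  intro z hz j
  have h1 := hfg z hz j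
  rw [pd_mul' (sf z hz) (sg z hz), der_mul (sf z hz) (sg z hz), hg z hz j] at h1
  have h2 : g z * (pd j f z - der k u f z * pd j u z) = 0 := by linear_combination h1
  rcases mul_eq_zero.1 h2 with h3 | h3
  · exact absurd h3 (h0 z hz)
  · linarith

/-- the derivative of a function of `u` is a function of `u` -/
lemma Dep.derv (hV : IsOpen V) (hf : Dep V k u f) (sf : SV V f) (su : SV V u)
    (h0 : ∀ z ∈ V, pd k u z ≠ 0) : Dep V k u (der k u f) := by
  intro z hz j
  have sd : SV V (der k u f) := sf.derv su h0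
  have key : ∀ i j, pd i (pd j f) z = pd i (der k u f) z * pd j u z
      + der k u f z * pd i (pd j u) z := by
    intro i j
    rw [pd_congr_on hV (fun w hw => hf w hw j) hz i,
      pd_mul' (f := der k u f) (g := pd j u) (sd z hz) (pd_smooth (su z hz) j)]
  have k1 := key j k
  have k2 := key k j
  rw [pd_comm (sf z hz) j k, k2, pd_comm (su z hz) k j] at k1
  have h1 := h0 z hz
  have e : der k u (der k u f) z = pd k (der k u f) z / pd k u z := rfl
  rw [e]
  field_simp
  linarith

/-- the Laplacian of a function of `u` -/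
lemma lap_dep {X : E n → E m} (hV : IsOpen V) (hf : Dep V k u f) (sf : SV V f) (su : SV V u)
    (h0 : ∀ z ∈ V, pd k u z ≠ 0) (hz : z ∈ V) :
    lap X f z = der k u f z * lap X u z - der k u (der k u f) z * gin X u u z := by
  have sd : SV V (der k u f) := sf.derv su h0
  have key : ∀ i j, pd i (pd j f) z = der k u (der k u f) z * (pd i u z * pd j u z)
      + der k u f z * pd i (pd j u) z := by
    intro i j
    rw [pd_congr_on hV (fun w hw => hf w hw j) hz i,
      pd_mul' (f := der k u f) (g := pd j u) (sd z hz) (pd_smooth (su z hz) j),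
      (hf.derv hV sf su h0) z hz i]
    ring
  have term : ∀ i j, (metric X z)⁻¹ i j • (pd i (pd j f) z - ∑ l, christoffel X z i j l • pd l f z)
      = der k u f z * ((metric X z)⁻¹ i j • (pd i (pd j u) z
          - ∑ l, christoffel X z i j l • pd l u z))
        + der k u (der k u f) z * ((metric X z)⁻¹ i j * (pd i u z * pd j u z)) := by
    intro i j
    have e : ∑ l, christoffel X z i j l • pd l f z
        = der k u f z * ∑ l, christoffel X z i j l • pd l u z := by
      rw [Finset.mul_sum]
      refine Finset.sum_congr rfl fun l _ => ?_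
      rw [hf z hz l]; simp only [smul_eq_mul]; ring
    rw [key i j, e]; simp only [smul_eq_mul]; ring
  unfold lap gin
  simp only [term, Finset.sum_add_distrib, ← Finset.mul_sum]
  ring

end

end Pool.Agent.PLC
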