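import Pool.Agent.PLC.Data
import Pool.Agent.PLC.Core

/-!
# The equations of a planar component where the curvature is not zero
-/

open scoped Manifold ContDiff Topology

namespace Pool.Agent.PLC

open Pool.Agent.Lib_helper91.CMC2 Pool.Agent.Lib_helper25.DA

namespace PD
variable {n m : ℕ} {V : Set (E n)} {X : E n → E m} {κ : Fin n} {u1 u2 Y1 Y2 : E n → ℝ}
  {l1 l2 k0 : ℝ} {z : E n}

lemma sw (h : PD V X κ u1 u2 Y1 Y2 l1 l2 k0) : SV V (w X κ u1 u2) :=
  h.sW.mul ((SV.const 1).add (h.sM.mul h.sM))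

lemma wpos (h : PD V X κ u1 u2 Y1 Y2 l1 l2 k0) (hz : z ∈ V) : 0 < w X κ u1 u2 z := by
  have h1 := h.Wpos hz
  have h2 := mul_self_nonneg (der κ u1 u2 z)
  unfold w
  positivity

lemma e10 (h : PD V X κ u1 u2 Y1 Y2 l1 l2 k0) (hz : z ∈ V) :
    der κ u1 (der κ u1 (der κ u1 u2)) z * gin X u1 u1 z
      + der κ u1 (der κ u1 u2) z * der κ u1 (gin X u1 u1) z
      = l1 * u1 z * der κ u1 (der κ u1 u2) z := by
  have h1 := der_congr_on (k := κ) (u := u1) h.op (fun w hw => h.e1 hw) hz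
  have a1 := h.su1 z hz
  have a2 := h.su2 z hz
  have a3 := h.sM z hz
  have a4 := h.sM1 z hz
  have a5 := h.sW z hz
  simp (disch := fun_prop) only [der_mul, der_sub, der_const] at h1
  rw [der_self (h.nz z hz)] at h1
  linear_combination h1

lemma nu (h : PD V X κ u1 u2 Y1 Y2 l1 l2 k0) (hz : z ∈ V)
    (hm : der κ u1 (der κ u1 u2) z ≠ 0) : u2 z - der κ u1 u2 z * u1 z ≠ 0 := by
  intro h0
  have h1 := h.e1 hz
  have h2 : der κ u1 (der κ u1 u2) z * gin X u1 u1 z = 0 := by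
    linear_combination h1 - l1 * h0
  rcases mul_eq_zero.1 h2 with h3 | h3
  · exact hm h3
  · exact (h.Wpos hz).ne' h3

section
variable (h : PD V X κ u1 u2 Y1 Y2 l1 l2 k0)
  (hm : ∀ z ∈ V, der κ u1 (der κ u1 u2) z ≠ 0)
include h hm

lemma depW : Dep V κ u1 (gin X u1 u1) := by
  refine Dep.of_mul (g := der κ u1 (der κ u1 u2)) ?_ h.depM1 h.sW h.sM1 hm
  have hs : SV V (fun z => l1 * (u1 z * der κ u1 u2 z)) := (SV.const l1).mul (h.su1.mul h.sM)
  have hd : Dep V κ u1 (fun z => l1 * (u1 z * der κ u1 u2 z)) :=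
    (Dep.const l1).mul ((Dep.self h.nz).mul h.depM h.su1 h.sM) (SV.const l1) (h.su1.mul h.sM)
  have hs2 : SV V (fun z => l1 * u2 z) := (SV.const l1).mul h.su2
  have hd2 : Dep V κ u1 (fun z => l1 * u2 z) := (Dep.const l1).mul h.dep2 (SV.const l1) h.su2
  refine Dep.congr h.op (f := fun z => l1 * (u1 z * der κ u1 u2 z) - l1 * u2 z) ?_
    (hd.sub hd2 hs hs2)
  intro z hz
  have := h.e1 hz
  linear_combination -this

lemma depw : Dep V κ u1 (w X κ u1 u2) :=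
  (h.depW hm).mul ((Dep.const 1).add (h.depM.mul h.depM h.sM h.sM) (SV.const 1)
    (h.sM.mul h.sM)) h.sW ((SV.const 1).add (h.sM.mul h.sM))

lemma depY2 : Dep V κ u1 Y2 := by
  have hs : SV V (fun z => u2 z - der κ u1 u2 z * u1 z) := h.su2.sub (h.sM.mul h.su1)
  have hd : Dep V κ u1 (fun z => u2 z - der κ u1 u2 z * u1 z) :=
    h.dep2.sub (h.depM.mul (Dep.self h.nz) h.sM h.su1) h.su2 (h.sM.mul h.su1)
  refine Dep.of_mul (g := fun z => u2 z - der κ u1 u2 z * u1 z) ?_ hd h.sY2 hs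
    (fun z hz => h.nu hz (hm z hz))
  have s1 : SV V (fun z => (l2 - l1) * w X κ u1 u2 z) := (SV.const _).mul h.sw
  have d1 : Dep V κ u1 (fun z => (l2 - l1) * w X κ u1 u2 z) :=
    (Dep.const (l2 - l1)).mul (h.depw hm) (SV.const _) h.sw
  have s2 : SV V (fun z => k0 - (l2 - l1) * w X κ u1 u2 z) := (SV.const k0).sub s1
  have d2 : Dep V κ u1 (fun z => k0 - (l2 - l1) * w X κ u1 u2 z) :=
    (Dep.const k0).sub d1 (SV.const k0) s1
  refine Dep.congr h.op (f := fun z => (1 / l1) * (k0 - (l2 - l1) * w X κ u1 u2 z)) ?_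
    ((Dep.const (1 / l1)).mul d2 (SV.const _) s2)
  intro z hz
  have h1 := h.f3 hz
  have h2 := h.ne1
  field_simp
  linear_combination -h1

lemma depY1 : Dep V κ u1 Y1 := by
  refine Dep.congr h.op (f := fun z => -1 * (der κ u1 u2 z * Y2 z)) (fun z hz => (h.Y1_eq hz).symm)
    ((Dep.const (-1)).mul (h.depM.mul (h.depY2 hm) h.sM h.sY2) (SV.const _) (h.sM.mul h.sY2))

lemma e7 (hz : z ∈ V) : l2 * Y2 z - l1 * (l2 - l1) * u2 z
    = l1 * u1 z * der κ u1 Y2 z - der κ u1 (der κ u1 Y2) z * gin X u1 u1 z := by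
  have h1 := lap_dep (X := X) h.op (h.depY2 hm) h.sY2 h.su1 h.nz hz
  rw [h.eY2 z hz, h.eu1 z hz] at h1
  linear_combination h1

lemma e8 (hz : z ∈ V) : l2 * (-(der κ u1 u2 z * Y2 z)) - l1 * (l2 - l1) * u1 z
    = l1 * u1 z * (-(der κ u1 (der κ u1 u2) z * Y2 z + der κ u1 u2 z * der κ u1 Y2 z))
      + (der κ u1 (der κ u1 (der κ u1 u2)) z * Y2 z
        + 2 * der κ u1 (der κ u1 u2) z * der κ u1 Y2 z
        + der κ u1 u2 z * der κ u1 (der κ u1 Y2) z) * gin X u1 u1 z := by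
  have h1 := lap_dep (X := X) h.op (h.depY1 hm) h.sY1 h.su1 h.nz hz
  rw [h.eY1 z hz, h.eu1 z hz, h.Y1_eq hz] at h1
  have d1 : ∀ z ∈ V, der κ u1 Y1 z
      = -1 * (der κ u1 (der κ u1 u2) z * Y2 z + der κ u1 u2 z * der κ u1 Y2 z) := by
    intro z hz
    have h2 := der_congr_on (k := κ) (u := u1) h.op (fun w hw => h.Y1_eq hw) hz
    have a1 := h.sM z hz
    have a2 := h.sY2 z hz
    simp (disch := fun_prop) only [der_mul, der_const] at h2
    rw [h2]; ring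
  have d2 := der_congr_on (k := κ) (u := u1) h.op d1 hz
  have a1 := h.sM z hz
  have a2 := h.sY2 z hz
  have a3 := h.sM1 z hz
  have a4 := h.sY2.derv h.su1 h.nz z hz
  simp (disch := fun_prop) only [der_add, der_mul, der_const] at d2
  rw [d1 z hz, d2] at h1
  linear_combination h1

lemma e9 (hz : z ∈ V) : -(l1 * (l2 - l1) * (u1 z + der κ u1 u2 z * u2 z))
    = -(l1 * u1 z * der κ u1 (der κ u1 u2) z * Y2 z)
      + gin X u1 u1 z * (der κ u1 (der κ u1 (der κ u1 u2)) z * Y2 z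
        + 2 * der κ u1 (der κ u1 u2) z * der κ u1 Y2 z) :=
  alg_E9 (h.e7 hm hz) (h.e8 hm hz)

end

end PD

end Pool.Agent.PLC
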