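import Pool.Agent.PLC.Eqs

/-!
# The first order equation, the relation (A), and the contradiction
-/

open scoped Manifold ContDiff Topology

namespace Pool.Agent.PLC

open Pool.Agent.Lib_helper91.CMC2 Pool.Agent.Lib_helper25.DA

namespace PD
variable {n m : ℕ} {V : Set (E n)} {X : E n → E m} {κ : Fin n} {u1 u2 Y1 Y2 : E n → ℝ}
  {l1 l2 k0 : ℝ} {z : E n}

lemma der_w (h : PD V X κ u1 u2 Y1 Y2 l1 l2 k0) (hz : z ∈ V) :
    der κ u1 (w X κ u1 u2) z = der κ u1 (gin X u1 u1) z * (1 + der κ u1 u2 z * der κ u1 u2 z)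
      + gin X u1 u1 z * (2 * der κ u1 u2 z * der κ u1 (der κ u1 u2) z) := by
  have a3 := h.sM z hz
  have a5 := h.sW z hz
  unfold w
  simp (disch := fun_prop) only [der_add, der_mul, der_const]
  ring

lemma f3' (h : PD V X κ u1 u2 Y1 Y2 l1 l2 k0) (hz : z ∈ V) :
    (l2 - l1) * der κ u1 (w X κ u1 u2) z + l1 * (der κ u1 Y2 z * (u2 z - der κ u1 u2 z * u1 z)
      - Y2 z * (der κ u1 (der κ u1 u2) z * u1 z)) = 0 := by
  have h1 := der_congr_on (k := κ) (u := u1) h.op (fun w hw => h.f3 hw) hz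
  have a1 := h.su1 z hz
  have a2 := h.su2 z hz
  have a3 := h.sM z hz
  have a4 := h.sY2 z hz
  have a5 := h.sw z hz
  simp (disch := fun_prop) only [der_add, der_mul, der_sub, der_const] at h1
  rw [der_self (h.nz z hz)] at h1
  linear_combination h1

lemma f3'' (h : PD V X κ u1 u2 Y1 Y2 l1 l2 k0) (hz : z ∈ V) :
    (l2 - l1) * der κ u1 (der κ u1 (w X κ u1 u2)) z
      + l1 * (der κ u1 (der κ u1 Y2) z * (u2 z - der κ u1 u2 z * u1 z)
      - 2 * der κ u1 Y2 z * der κ u1 (der κ u1 u2) z * u1 z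
      - Y2 z * (der κ u1 (der κ u1 (der κ u1 u2)) z * u1 z + der κ u1 (der κ u1 u2) z)) = 0 := by
  have h1 := der_congr_on (k := κ) (u := u1) h.op (fun w hw => h.f3' hw) hz
  have a1 := h.su1 z hz
  have a2 := h.su2 z hz
  have a3 := h.sM z hz
  have a4 := h.sY2 z hz
  have a5 := h.sw.derv h.su1 h.nz z hz
  have a6 := h.sM1 z hz
  have a7 := h.sY2.derv h.su1 h.nz z hz
  simp (disch := fun_prop) only [der_add, der_mul, der_sub, der_const] at h1
  rw [der_self (h.nz z hz)] at h1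
  linear_combination h1

section
variable (h : PD V X κ u1 u2 Y1 Y2 l1 l2 k0)
  (hm : ∀ z ∈ V, der κ u1 (der κ u1 u2) z ≠ 0)
include h hm

/-- the first order equation -/
lemma eT (hz : z ∈ V) : ((l2 - l1) * w X κ u1 u2 z + k0) * der κ u1 (w X κ u1 u2) z
    = l1 * (u1 z + der κ u1 u2 z * u2 z) * ((l2 - l1) * w X κ u1 u2 z - 2 * k0) := by
  have b1 := h.e1 hz
  have b2 := h.e10 hz
  have b3 := h.e9 hm hz
  have b4 := h.f3 hz
  have b5 := h.f3' hz
  have b6 := h.der_w hz
  have b7 : w X κ u1 u2 z = gin X u1 u1 z * (1 + der κ u1 u2 z * der κ u1 u2 z) := rfl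
  rw [b6] at b5 ⊢
  rw [b7] at b4 ⊢
  have key := alg_T (k0 := k0) (hm z hz) b1 b2 b3 (by linear_combination b4) (by linear_combination b5)
  linear_combination key

lemma eT' (hz : z ∈ V) : (l2 - l1) * der κ u1 (w X κ u1 u2) z * der κ u1 (w X κ u1 u2) z
      + ((l2 - l1) * w X κ u1 u2 z + k0) * der κ u1 (der κ u1 (w X κ u1 u2)) z
    = l1 * (1 + der κ u1 u2 z ^ 2 + der κ u1 (der κ u1 u2) z * u2 z)
        * ((l2 - l1) * w X κ u1 u2 z - 2 * k0)
      + l1 * (u1 z + der κ u1 u2 z * u2 z) * ((l2 - l1) * der κ u1 (w X κ u1 u2) z) := by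
  have h1 := der_congr_on (k := κ) (u := u1) h.op (fun w hw => h.eT hm hw) hz
  have a1 := h.su1 z hz
  have a2 := h.su2 z hz
  have a3 := h.sM z hz
  have a5 := h.sw z hz
  have a6 := h.sw.derv h.su1 h.nz z hz
  simp (disch := fun_prop) only [der_add, der_mul, der_sub, der_const] at h1
  rw [der_self (h.nz z hz)] at h1
  linear_combination h1

lemma e14 (hz : z ∈ V) : l1 * u1 z * der κ u1 (w X κ u1 u2) z
      - der κ u1 (der κ u1 (w X κ u1 u2)) z * gin X u1 u1 z
    = (l2 - l1) * w X κ u1 u2 z - k0 + l1 ^ 2 * (u1 z ^ 2 + u2 z ^ 2) :=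
  alg_E14 (sub_ne_zero.2 h.ne.symm) (h.e1 hz) (h.e7 hm hz) (h.e9 hm hz) (h.f3 hz)
    (by have := h.f3' hz; linear_combination this) (by have := h.f3'' hz; linear_combination this)

/-- If the plane curve is curved, does not move orthogonally to the position vector and
`(l2 - l1) w ≠ - k0`, a contradiction. -/
lemma contra (hne : V.Nonempty) (hq : ∀ z ∈ V, u1 z + der κ u1 u2 z * u2 z ≠ 0)
    (hk : ∀ z ∈ V, (l2 - l1) * w X κ u1 u2 z + k0 ≠ 0) : False := by
  have hD : l2 - l1 ≠ 0 := sub_ne_zero.2 h.ne.symm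
  -- the three functions
  set t : E n → ℝ := fun z => (l2 - l1) * w X κ u1 u2 z with ht
  set N : E n → ℝ := fun z => l1 * (l2 - l1) * ((u2 z - der κ u1 u2 z * u1 z)
    * (u2 z - der κ u1 u2 z * u1 z)) / (1 + der κ u1 u2 z * der κ u1 u2 z) with hN
  set T : E n → ℝ := fun z => l1 * (l2 - l1) * ((u1 z + der κ u1 u2 z * u2 z)
    * (u1 z + der κ u1 u2 z * u2 z)) / (1 + der κ u1 u2 z * der κ u1 u2 z) with hT
  have hS : ∀ z, (1 + der κ u1 u2 z * der κ u1 u2 z) ≠ 0 := fun z => by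
    nlinarith [mul_self_nonneg (der κ u1 u2 z)]
  have st : SV V t := (SV.const _).mul h.sw
  have sN : SV V N := fun z hz => by
    have a1 := h.su1 z hz
    have a2 := h.su2 z hz
    have a3 := h.sM z hz
    have a4 := hS z
    exact ContDiffAt.div (by fun_prop) (by fun_prop) a4
  have sT : SV V T := fun z hz => by
    have a1 := h.su1 z hz
    have a2 := h.su2 z hz
    have a3 := h.sM z hz
    have a4 := hS z
    exact ContDiffAt.div (by fun_prop) (by fun_prop) a4
  have eN : ∀ z ∈ V, N z * (1 + der κ u1 u2 z * der κ u1 u2 z)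
      = l1 * (l2 - l1) * ((u2 z - der κ u1 u2 z * u1 z) * (u2 z - der κ u1 u2 z * u1 z)) :=
    fun z _ => div_mul_cancel₀ _ (hS z)
  have eTT : ∀ z ∈ V, T z * (1 + der κ u1 u2 z * der κ u1 u2 z)
      = l1 * (l2 - l1) * ((u1 z + der κ u1 u2 z * u2 z) * (u1 z + der κ u1 u2 z * u2 z)) :=
    fun z _ => div_mul_cancel₀ _ (hS z)
  have dt : ∀ z ∈ V, der κ u1 t z = (l2 - l1) * der κ u1 (w X κ u1 u2) z := by
    intro z hz
    have a5 := h.sw z hz
    rw [ht]
    simp (disch := fun_prop) only [der_mul, der_const]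
    ring
  have eNN : ∀ z ∈ V, der κ u1 N z * (1 + der κ u1 u2 z * der κ u1 u2 z)
      + N z * (2 * der κ u1 u2 z * der κ u1 (der κ u1 u2) z)
      = l1 * (l2 - l1) * (2 * (u2 z - der κ u1 u2 z * u1 z)
        * (-(der κ u1 (der κ u1 u2) z * u1 z))) := by
    intro z hz
    have h1 := der_congr_on (k := κ) (u := u1) h.op eN hz
    have a1 := h.su1 z hz
    have a2 := h.su2 z hz
    have a3 := h.sM z hz
    have a4 := sN z hz
    simp (disch := fun_prop) only [der_add, der_mul, der_sub, der_const] at h1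
    rw [der_self (h.nz z hz)] at h1
    linear_combination h1
  have eTTT : ∀ z ∈ V, der κ u1 T z * (1 + der κ u1 u2 z * der κ u1 u2 z)
      + T z * (2 * der κ u1 u2 z * der κ u1 (der κ u1 u2) z)
      = l1 * (l2 - l1) * (2 * (u1 z + der κ u1 u2 z * u2 z)
        * (1 + der κ u1 (der κ u1 u2) z * u2 z + der κ u1 u2 z * der κ u1 u2 z)) := by
    intro z hz
    have h1 := der_congr_on (k := κ) (u := u1) h.op eTT hz
    have a1 := h.su1 z hz
    have a2 := h.su2 z hz
    have a3 := h.sM z hz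
    have a4 := sT z hz
    simp (disch := fun_prop) only [der_add, der_mul, der_const] at h1
    rw [der_self (h.nz z hz)] at h1
    linear_combination h1
  -- the relation (A)
  have hA : ∀ z ∈ V, 3 * (-k0) * (N z * ((t z - (-k0)) * (t z - (-k0)))
        + T z * (2 * (t z * t z) + (-k0) * (-k0)))
      = (-k0) * (2 * t z + (-k0)) * ((t z - (-k0)) * (t z - (-k0)))
        + (l2 / l1) * (t z + (-k0)) * ((t z - (-k0)) * ((t z - (-k0)) * (t z - (-k0)))) := by
    intro z hz
    have key := alg_A (N := N z) (T := T z) (t := t z) (k := -k0) (w := w X κ u1 u2 z)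
      (W := gin X u1 u1 z) (m := der κ u1 u2 z) (k0 := k0)
      (by unfold w; ring) rfl rfl (h.e1 hz) (h.eT hm hz) (h.eT' hm hz) (h.e14 hm hz)
      (by rw [pow_two, eN z hz]; ring) (by rw [pow_two, eTT z hz]; ring)
    have h1 := h.ne1
    field_simp
    linear_combination key
  have ht0 : ∀ z ∈ V, t z ≠ 0 := fun z hz => mul_ne_zero hD (h.wpos hz).ne'
  have htk : ∀ z ∈ V, t z ≠ -k0 := fun z hz hc => hk z hz (by rw [ht] at hc; linarith)
  by_cases hk0 : k0 = 0
  · obtain ⟨z, hz⟩ := hne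
    have h1 := hA z hz
    rw [hk0] at h1
    have h2 : (l2 / l1) * (t z) ^ 4 = 0 := by linear_combination -h1
    rcases mul_eq_zero.1 h2 with h3 | h3
    · exact (div_ne_zero h.ne2 h.ne1) h3
    · exact ht0 z hz (pow_eq_zero_iff (by norm_num) |>.1 h3)
  · refine core (κ := κ) (u := u1) (r := fun z => l1 * (l2 - l1) * (u1 z + der κ u1 u2 z * u2 z))
      h.op hne st sN sT (neg_ne_zero.2 hk0) ?_ ?_ ?_ ?_ htk ht0 hA
    · intro z hz
      have := h.eT hm hz
      rw [dt z hz]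
      simp only [ht]
      linear_combination (l2 - l1) * this
    · intro z hz
      exact alg_N (m1 := der κ u1 (der κ u1 u2) z) (W := gin X u1 u1 z) rfl (h.e1 hz)
        (eN z hz) (eNN z hz)
    · intro z hz
      exact alg_TT (m1 := der κ u1 (der κ u1 u2) z) (W := gin X u1 u1 z) rfl (h.e1 hz)
        (eN z hz) (eTT z hz) (eTTT z hz)
    · intro z hz
      exact mul_ne_zero (mul_ne_zero h.ne1 hD) (hq z hz)

end

end PD

end Pool.Agent.PLC
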