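import Pool.Agent.PLC.Loc
import Pool.Agent.Lib_helper91.CMC2.IndepMain

/-!
# An immersion with a planar component is spherical
-/

open scoped Manifold ContDiff Topology
open Module

namespace Pool.Agent.PLC

open Pool.Agent.Lib_helper91.CMC2 Pool.Agent.Lib_helper25.DA
open Pool.Agent.Lib_helper91.CMC2.LD (yv)

section
variable {n m : ℕ} {U : Set (E n)} {X X1 X2 : E n → E m} {c : E m} {l1 l2 N0 : ℝ} {z : E n}
  {b1 b2 : E m}

lemma pd_rad (h : LD U X X1 X2 c l1 l2 N0) (hz : z ∈ U) (j : Fin n) :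
    pd j (fun w => (inner ℝ (X w - c) (X w - c) : ℝ)) z
      = 2 * (inner ℝ (X1 z) (pd j X1 z) + inner ℝ (X1 z) (pd j X2 z)
        + inner ℝ (X2 z) (pd j X1 z) + inner ℝ (X2 z) (pd j X2 z)) := by
  have hs : ContDiffAt ℝ ∞ (fun w => X w - c) z := (h.sX hz).sub contDiffAt_const
  have e1 : pd j (fun w => X w - c) z = pd j X z := by
    unfold pd
    rw [fderiv_sub_const]
  rw [pd_inner (diff_of hs) (diff_of hs), e1, real_inner_comm (X z - c) (pd j X z), h.pdX hz]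
  have e2 : X z - c = X1 z + X2 z := by rw [h.dec z hz]; abel
  rw [e2]
  simp only [inner_add_left, inner_add_right]
  ring

/-- if `dw = l1 ⟨x1, dx1⟩` then the distance from `c` has zero differential -/
lemma rad_zero (h : LD U X X1 X2 c l1 l2 N0) {V : Set (E n)} (hV : IsOpen V) (hVU : V ⊆ U)
    {w : E n → ℝ} {k0 : ℝ} (sw : SV V w)
    (hw : ∀ z ∈ V, (l2 - l1) * w z + l1 * inner ℝ (yv l1 l2 X1 X2 z) (X1 z) = k0)
    (hz : z ∈ V) {j : Fin n} (hj : pd j w z = l1 * (inner ℝ (X1 z) (pd j X1 z) : ℝ)) :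
    pd j (fun w => (inner ℝ (X w - c) (X w - c) : ℝ)) z = 0 := by
  have hzU := hVU hz
  rw [pd_rad h hzU]
  have a1 := h.inner_y_1 hzU j
  have a2 := h.inner_y_2 hzU j
  have sB : ContDiffAt ℝ ∞ (fun w => (inner ℝ (yv l1 l2 X1 X2 w) (X1 w) : ℝ)) z :=
    (h.sy hzU).inner ℝ (h.s1 z hzU)
  have h1 := pd_congr_on hV (g := fun _ => k0) hw hz j
  rw [pd_const, pd_add' (f := fun z => (l2 - l1) * w z)
    (g := fun z => l1 * inner ℝ (yv l1 l2 X1 X2 z) (X1 z))
    (contDiffAt_const.mul (sw z hz)) (contDiffAt_const.mul sB),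
    pd_mul' (f := fun _ => l2 - l1) contDiffAt_const (sw z hz),
    pd_mul' (f := fun _ => l1) contDiffAt_const sB, pd_const, pd_const,
    pd_inner (diff_of (h.sy hzU)) (diff_of (h.s1 z hzU)), a1, h.pdy hzU, hj] at h1
  rw [inner_add_left, real_inner_smul_left, real_inner_smul_left] at h1
  unfold yv at a1 a2
  rw [inner_add_left, real_inner_smul_left, real_inner_smul_left] at a1 a2
  rw [real_inner_comm (X1 z) (pd j X1 z), real_inner_comm (X1 z) (pd j X2 z)] at h1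
  set A := (inner ℝ (X1 z) (pd j X1 z) : ℝ)
  set B := (inner ℝ (X1 z) (pd j X2 z) : ℝ)
  set C := (inner ℝ (X2 z) (pd j X1 z) : ℝ)
  set D := (inner ℝ (X2 z) (pd j X2 z) : ℝ)
  have h2 : l1 * l2 * (A + B) = 0 := by linear_combination h1
  have h3 : A + B = 0 := (mul_eq_zero.1 h2).resolve_left (mul_ne_zero h.ne1 h.ne2)
  have h4 : l2 * (C + D) = 0 := by linear_combination a1 + a2 - l1 * h3
  have h5 : C + D = 0 := (mul_eq_zero.1 h4).resolve_left h.ne2
  linear_combination 2 * h3 + 2 * h5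

/-- a function with zero derivatives has zero Laplacian -/
lemma lap_zero_of_pd {V : Set (E n)} (hV : IsOpen V) {F : E n → E m}
    (hF : ∀ w ∈ V, ∀ j, pd j F w = 0) (hz : z ∈ V) : lap X F z = 0 := by
  unfold lap
  rw [neg_eq_zero]
  refine Finset.sum_eq_zero fun i _ => Finset.sum_eq_zero fun j _ => ?_
  have h1 : pd j F =ᶠ[𝓝 z] fun _ => (0 : E m) := by
    filter_upwards [hV.mem_nhds hz] with w hw using hF w hw j
  rw [pd_congr h1 i, pd_const]
  have h2 : ∑ k, christoffel X z i j k • pd k F z = 0 :=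
    Finset.sum_eq_zero fun k _ => by rw [hF z hz k, smul_zero]
  rw [h2, sub_zero, smul_zero]

lemma rad_main (h : LD U X X1 X2 c l1 l2 N0) (hp : Pl U X1 b1 b2) {V0 : Set (E n)}
    (hV : IsOpen V0) (hVU : V0 ⊆ U) {κ : Fin n} (hκ : ∀ w ∈ V0, pd κ (sc b1 X1) w ≠ 0)
    (hne : V0.Nonempty) :
    ∃ z ∈ V0, ∀ j, pd j (fun w => (inner ℝ (X w - c) (X w - c) : ℝ)) z = 0 := by
  have hPD := toPD h hp hV hVU hκ
  obtain ⟨z, hz, hj⟩ := hPD.main hne
  refine ⟨z, hz, fun j => ?_⟩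
  refine rad_zero h hV hVU (w := PD.w X κ (sc b1 X1) (sc b2 X1))
    (k0 := l2 * (N0 ^ 2 - l2 * n) / (l1 - l2)) hPD.sw ?_ hz ?_
  · intro w hw
    rw [← hPD.w_eq hw, gin_tr h hp (hVU hw)]
    exact energy h (hVU hw)
  · rw [hj j]
    have e : (inner ℝ (X1 z) (pd j X1 z) : ℝ) = sc b1 X1 z * pd j (sc b1 X1) z
        + sc b2 X1 z * pd j (sc b2 X1) z := by
      conv_lhs => rw [hp.eq z (hVU hz)]
      rw [inner_add_left, real_inner_smul_left, real_inner_smul_left,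
        pd_sc b1 (h.s1 z (hVU hz)), pd_sc b2 (h.s1 z (hVU hz))]
      rfl
    rw [e]

theorem rad_const (h : LD U X X1 X2 c l1 l2 N0) (hp : Pl U X1 b1 b2) :
    ∀ z ∈ U, ∀ j, pd j (fun w => (inner ℝ (X w - c) (X w - c) : ℝ)) z = 0 := by
  by_contra hcon
  push Not at hcon
  obtain ⟨z0, hz0, j0, hj0⟩ := hcon
  set F : E n → ℝ := fun w => (inner ℝ (X w - c) (X w - c) : ℝ) with hF
  have sF : SV U F := fun w hw => by
    have hs : ContDiffAt ℝ ∞ (fun w => X w - c) w := (h.sX hw).sub contDiffAt_const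
    exact hs.inner ℝ hs
  set V0 : Set (E n) := {z | z ∈ U ∧ pd j0 F z ≠ 0} with hV0
  have o0 : IsOpen V0 := open_ne h.op (sF.pdv j0)
  have s0 : V0 ⊆ U := fun z hz => hz.1
  have su : ∀ b : E m, SV V0 (sc b X1) := fun b w hw => sc_smooth b (h.s1 w (s0 hw))
  by_cases hA : ∃ b : E m, ∃ b' : E m, Pl U X1 b b' ∧ ∃ κ : Fin n, ∃ z ∈ V0,
      pd κ (sc b X1) z ≠ 0
  · obtain ⟨b, b', hbb, κ, z1, hz1, hne1⟩ := hA
    set V1 : Set (E n) := {z | z ∈ V0 ∧ pd κ (sc b X1) z ≠ 0} with hV1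
    have o1 : IsOpen V1 := open_ne o0 ((su b).pdv κ)
    obtain ⟨z, hz, hj⟩ := rad_main h hbb o1 (fun z hz => s0 hz.1) (fun z hz => hz.2)
      ⟨z1, hz1, hne1⟩
    exact hz.1.2 (hj j0)
  · push Not at hA
    have hz0V : z0 ∈ V0 := ⟨hz0, hj0⟩
    have hd : ∀ w ∈ V0, ∀ j, pd j X1 w = 0 := by
      intro w hw j
      have e1 := hA b1 b2 hp j w hw
      have e2 := hA b2 b1 hp.symm j w hw
      rw [pd_sc _ (h.s1 w (s0 hw))] at e1 e2
      rw [hp.pd h.op (s0 hw) (h.s1 w (s0 hw)) j, e1, e2, zero_smul, zero_smul, add_zero]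
    have hX1 : ∀ w ∈ V0, X1 w = 0 := by
      intro w hw
      have h1 := h.e1 w (s0 hw)
      rw [lap_zero_of_pd o0 hd hw] at h1
      exact (smul_eq_zero.1 h1.symm).resolve_left h.ne1
    have hFc : ∀ w ∈ V0, F w = N0 ^ 2 / l2 ^ 2 := by
      intro w hw
      have h1 := h.normy (s0 hw)
      unfold yv at h1
      rw [hX1 w hw, smul_zero, zero_add, real_inner_smul_left, real_inner_smul_right] at h1
      have e2 : X w - c = X2 w := by rw [h.dec w (s0 hw), hX1 w hw]; abel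
      simp only [hF]
      rw [e2, eq_div_iff (pow_ne_zero 2 h.ne2), ← h1]
      ring
    refine hj0 ?_
    rw [pd_congr_on o0 (g := fun _ => N0 ^ 2 / l2 ^ 2) hFc hz0V, pd_const]

end

end Pool.Agent.PLC
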