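import Pool.Agent.PLC.Fin

/-!
# Immersions with a planar component lie in a hypersphere centred at `c`
-/

open scoped Manifold ContDiff Topology
open Module

namespace Pool.Agent.PLC

open Pool.Agent.Lib_helper91.CMC2 Pool.Agent.Lib_helper25.DA
open Pool.Agent.Lib_helper91.CMC2.LD (yv)

lemma exists_pair_aux {m d : ℕ} (K : Submodule ℝ (E m)) (hd : d ≤ 2)
    (b : OrthonormalBasis (Fin d) ℝ K) :
    ∃ b1 b2 : E m, ∀ v ∈ K, v = (inner ℝ b1 v : ℝ) • b1 + (inner ℝ b2 v : ℝ) • b2 := by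
  have key : ∀ v ∈ K, v = ∑ i, (inner ℝ (b i : E m) v : ℝ) • (b i : E m) := by
    intro v hv
    have h1 := b.sum_repr ⟨v, hv⟩
    have h2 := congrArg (Subtype.val : K → E m) h1
    rw [Submodule.coe_sum] at h2
    refine h2.symm.trans (Finset.sum_congr rfl fun i _ => ?_)
    rw [Submodule.coe_smul, b.repr_apply_apply]
    rfl
  interval_cases d
  · refine ⟨0, 0, fun v hv => ?_⟩
    have := key v hv
    simpa using this
  · refine ⟨(b 0 : E m), 0, fun v hv => ?_⟩
    have h1 := key v hv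
    rw [Fin.sum_univ_one] at h1
    rw [smul_zero, add_zero]
    exact h1
  · refine ⟨(b 0 : E m), (b 1 : E m), fun v hv => ?_⟩
    have h1 := key v hv
    rw [Fin.sum_univ_two] at h1
    exact h1

lemma exists_pair {m : ℕ} (K : Submodule ℝ (E m)) (hK : finrank ℝ K ≤ 2) :
    ∃ b1 b2 : E m, ∀ v ∈ K, v = (inner ℝ b1 v : ℝ) • b1 + (inner ℝ b2 v : ℝ) • b2 :=
  exists_pair_aux K hK (stdOrthonormalBasis ℝ K)

section
variable {n m : ℕ} {M : Type*} [TopologicalSpace M] [ChartedSpace (E n) M]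
  [IsManifold 𝓘(ℝ, E n) ∞ M] [ConnectedSpace M]

/-- if the distance from `c` has zero derivatives in all charts, then `x(M)` lies in a
hypersphere centred at `c` -/
theorem spherical_of_rad {x : M → E m} {c : E m} {x1 x2 : M → E m} {l1 l2 : ℝ}
    (h : IsCMCNonNullTwoType (n := n) x c x1 x2 l1 l2)
    (hrad : ∀ e ∈ atlas (E n) M, ∀ z ∈ e.target, ∀ j,
      pd j (fun w => (inner ℝ ((x ∘ e.symm) w - c) ((x ∘ e.symm) w - c) : ℝ)) z = 0) :
    ∃ r : ℝ, 0 < r ∧ ∀ p, dist (x p) c = r := by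
  have hn := n_ne_zero h
  obtain ⟨N0, hN⟩ := exists_LD hn h
  set f : M → ℝ := fun p => (inner ℝ (x p - c) (x p - c) : ℝ) with hf
  have hconst : ∀ p q, f p = f q := by
    refine const_of_fderiv_zero (n := n) (f := f) ?_ ?_
    · intro e he z hz
      have hL := hN e he
      have hs : ContDiffAt ℝ ∞ (fun w => (x ∘ e.symm) w - c) z := (hL.sX hz).sub contDiffAt_const
      exact diff_of (hs.inner ℝ hs)
    · intro e he z hz
      have h1 := hrad e he z hz
      ext v
      rw [fderiv_eq_sum]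
      refine Finset.sum_eq_zero fun i _ => ?_
      have h2 : pd i (f ∘ e.symm) z = 0 := h1 i
      rw [h2, smul_zero]
  obtain ⟨p0⟩ : Nonempty M := inferInstance
  have hdist : ∀ p, dist (x p) c = √(f p0) := by
    intro p
    rw [hconst p0 p, dist_eq_norm, norm_eq_sqrt_real_inner]
  refine ⟨√(f p0), ?_, hdist⟩
  by_contra hcon
  have h0 : √(f p0) = 0 := le_antisymm (not_lt.1 hcon) (Real.sqrt_nonneg _)
  have hx : ∀ p, x p = c := fun p => by
    have := hdist p
    rw [h0] at this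
    exact dist_eq_zero.1 this
  have he : chartAt (E n) p0 ∈ atlas (E n) M := chart_mem_atlas _ _
  have hz : chartAt (E n) p0 p0 ∈ (chartAt (E n) p0).target :=
    (chartAt (E n) p0).map_source (mem_chart_source _ p0)
  have hinj := h.immersion _ he _ hz
  have hc : (x ∘ (chartAt (E n) p0).symm) = fun _ => c := by funext w; exact hx _
  rw [hc] at hinj
  have h1 : fderiv ℝ (fun _ : E n => c) (chartAt (E n) p0 p0) = 0 := by
    simp
  rw [h1] at hinj
  have i0 : Fin n := ⟨0, Nat.pos_of_ne_zero hn⟩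
  have h2 : (EuclideanSpace.single i0 (1 : ℝ) : E n) = 0 := hinj (by simp)
  have h3 := congrArg (fun v : E n => v i0) h2
  simp at h3

theorem planar_spherical {x : M → E m} {c : E m} {x1 x2 : M → E m} {l1 l2 : ℝ}
    (h : IsCMCNonNullTwoType (n := n) x c x1 x2 l1 l2) (hp : finrank ℝ (spanOf x1) ≤ 2) :
    ∃ r : ℝ, 0 < r ∧ ∀ p, dist (x p) c = r := by
  obtain ⟨N0, hN⟩ := exists_LD (n_ne_zero h) h
  obtain ⟨b1, b2, hb⟩ := exists_pair (spanOf x1) hp
  have hm1 : ∀ p, x1 p ∈ spanOf x1 := fun p => Submodule.subset_span ⟨p, rfl⟩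
  have hPl : ∀ e : OpenPartialHomeomorph M (E n), Pl e.target (x1 ∘ e.symm) b1 b2 := fun e =>
    ⟨fun w _ => hb _ (hm1 _)⟩
  exact spherical_of_rad h fun e he z hz => rad_const (hN e he) (hPl e) z hz

theorem planar_spherical' {x : M → E m} {c : E m} {x1 x2 : M → E m} {l1 l2 : ℝ}
    (h : IsCMCNonNullTwoType (n := n) x c x1 x2 l1 l2)
    (hp : finrank ℝ (spanOf x1) ≤ 2 ∨ finrank ℝ (spanOf x2) ≤ 2) :
    ∃ r : ℝ, 0 < r ∧ ∀ p, dist (x p) c = r := by
  rcases hp with hp | hp
  · exact planar_spherical h hp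
  · exact planar_spherical (cmc_symm h) hp

end

end Pool.Agent.PLC
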