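import Pool.Agent.PLC.Main1

/-!
# From an immersion with a planar component to scalar data
-/

open scoped Manifold ContDiff Topology

namespace Pool.Agent.PLC

open Pool.Agent.Lib_helper91.CMC2 Pool.Agent.Lib_helper25.DA
open Pool.Agent.Lib_helper91.CMC2.LD (yv)

section
variable {n m : ℕ} {U : Set (E n)} {X X1 X2 : E n → E m} {c : E m} {l1 l2 N0 : ℝ} {z : E n}

/-- `∑ g^{ij} ⟨∂_i F, ∂_j y⟩ = ⟨y, Δ F⟩` if `⟨y, dF⟩ = 0` -/
lemma trace_F (h : LD U X X1 X2 c l1 l2 N0) (hz : z ∈ U) {F : E n → E m}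
    (sF : ∀ w ∈ U, ContDiffAt ℝ ∞ F w)
    (hF : ∀ w ∈ U, ∀ j, inner ℝ (yv l1 l2 X1 X2 w) (pd j F w) = (0 : ℝ)) :
    ∑ i, ∑ j, (metric X z)⁻¹ i j * inner ℝ (pd i F z) (pd j (yv l1 l2 X1 X2) z)
      = (inner ℝ (yv l1 l2 X1 X2 z) (lap X F z) : ℝ) := by
  have e1 : ∀ i j, inner ℝ (yv l1 l2 X1 X2 z) (pd i (pd j F) z)
      + inner ℝ (pd i (yv l1 l2 X1 X2) z) (pd j F z) = (0 : ℝ) := by
    intro i j
    have h1 : (fun w => inner ℝ (yv l1 l2 X1 X2 w) (pd j F w)) =ᶠ[𝓝 z] fun _ => (0 : ℝ) := by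
      filter_upwards [h.op.mem_nhds hz] with w hw using hF w hw j
    have h2 := pd_congr h1 i
    rw [pd_const, pd_inner (diff_of (h.sy hz)) (diff_of (pd_smooth (sF z hz) j))] at h2
    exact h2
  unfold lap
  rw [inner_neg_right, inner_sum, ← Finset.sum_neg_distrib, Finset.sum_comm]
  refine Finset.sum_congr rfl fun i _ => ?_
  rw [inner_sum, ← Finset.sum_neg_distrib]
  refine Finset.sum_congr rfl fun j _ => ?_
  rw [real_inner_smul_right, inner_sub_right, inner_sum]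
  have e4 : ∑ k, inner ℝ (yv l1 l2 X1 X2 z) (christoffel X z i j k • pd k F z) = (0 : ℝ) :=
    Finset.sum_eq_zero fun k _ => by rw [real_inner_smul_right, hF z hz k, mul_zero]
  rw [e4, inv_symm X z j i, real_inner_comm]
  have := e1 i j
  linear_combination ((metric X z)⁻¹ i j) * this

/-- the trace of a pairing of differentials -/
noncomputable def tr (X : E n → E m) (F G : E n → E m) (z : E n) : ℝ :=
  ∑ i, ∑ j, (metric X z)⁻¹ i j * inner ℝ (pd i F z) (pd j G z)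

lemma tr_comm (X F G : E n → E m) (z : E n) : tr X F G z = tr X G F z := by
  unfold tr
  rw [Finset.sum_comm]
  refine Finset.sum_congr rfl fun i _ => Finset.sum_congr rfl fun j _ => ?_
  rw [inv_symm, real_inner_comm]

/-- the energy identity -/
lemma energy (h : LD U X X1 X2 c l1 l2 N0) (hz : z ∈ U) :
    (l2 - l1) * tr X X1 X1 z + l1 * inner ℝ (yv l1 l2 X1 X2 z) (X1 z)
      = l2 * (N0 ^ 2 - l2 * n) / (l1 - l2) := by
  have hne : l1 - l2 ≠ 0 := sub_ne_zero.2 h.ne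
  -- the four identities
  have ty : ∀ F : E n → E m, ∑ i, ∑ j, (metric X z)⁻¹ i j *
      inner ℝ (pd i F z) (pd j (yv l1 l2 X1 X2) z) = l1 * tr X F X1 z + l2 * tr X F X2 z := by
    intro F
    unfold tr
    rw [Finset.mul_sum, Finset.mul_sum, ← Finset.sum_add_distrib]
    refine Finset.sum_congr rfl fun i _ => ?_
    rw [Finset.mul_sum, Finset.mul_sum, ← Finset.sum_add_distrib]
    refine Finset.sum_congr rfl fun j _ => ?_
    rw [h.pdy hz, inner_add_right, real_inner_smul_right, real_inner_smul_right]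
    ring
  have a1 := trace_F h hz h.s1 (fun w hw j => h.inner_y_1 hw j)
  have a2 := trace_F h hz h.s2 (fun w hw j => h.inner_y_2 hw j)
  rw [ty, h.e1 z hz, real_inner_smul_right] at a1
  rw [ty, h.e2 z hz, real_inner_smul_right, tr_comm X X2 X1] at a2
  have a3 : tr X X1 X1 z + 2 * tr X X1 X2 z + tr X X2 X2 z = n := by
    rw [← trace_metric (h.imm z hz)]
    have e : ∀ i j, (metric X z)⁻¹ i j * inner ℝ (pd i X z) (pd j X z)
        = (metric X z)⁻¹ i j * inner ℝ (pd i X1 z) (pd j X1 z)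
        + (metric X z)⁻¹ i j * inner ℝ (pd i X1 z) (pd j X2 z)
        + (metric X z)⁻¹ i j * inner ℝ (pd i X2 z) (pd j X1 z)
        + (metric X z)⁻¹ i j * (inner ℝ (pd i X2 z) (pd j X2 z) : ℝ) := by
      intro i j
      rw [h.pdX hz, h.pdX hz, inner_add_left, inner_add_right, inner_add_right]; ring
    simp only [e, Finset.sum_add_distrib]
    have := tr_comm X X1 X2 z
    unfold tr at this ⊢
    linarith
  have a4 := h.normy hz
  have a5 : inner ℝ (yv l1 l2 X1 X2 z) (yv l1 l2 X1 X2 z)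
      = l1 * inner ℝ (yv l1 l2 X1 X2 z) (X1 z) + l2 * (inner ℝ (yv l1 l2 X1 X2 z) (X2 z) : ℝ) := by
    conv_lhs => rw [show (inner ℝ (yv l1 l2 X1 X2 z) (yv l1 l2 X1 X2 z) : ℝ)
      = inner ℝ (yv l1 l2 X1 X2 z) (l1 • X1 z + l2 • X2 z) from rfl]
    rw [inner_add_right, real_inner_smul_right, real_inner_smul_right]
  rw [a5] at a4
  rw [eq_div_iff hne]
  linear_combination (-(l1 - l2)) * a1 + l2 * a4 + l2 * a1 + l2 * a2 - l2 ^ 2 * a3

/-- the planar component, with two fixed vectors `b1, b2` -/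
structure Pl (U : Set (E n)) (X1 : E n → E m) (b1 b2 : E m) : Prop where
  eq : ∀ w ∈ U, X1 w = (inner ℝ b1 (X1 w) : ℝ) • b1 + (inner ℝ b2 (X1 w) : ℝ) • b2

lemma Pl.symm {b1 b2 : E m} (hp : Pl U X1 b1 b2) : Pl U X1 b2 b1 :=
  ⟨fun w hw => by rw [add_comm]; exact hp.eq w hw⟩

lemma Pl.pd {b1 b2 : E m} (hp : Pl U X1 b1 b2) (hU : IsOpen U) (hz : z ∈ U)
    (s1 : ContDiffAt ℝ ∞ X1 z) (j : Fin n) :
    pd j X1 z = (inner ℝ b1 (pd j X1 z) : ℝ) • b1 + (inner ℝ b2 (pd j X1 z) : ℝ) • b2 := by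
  set L : E m →L[ℝ] E m := (innerSL ℝ b1).smulRight b1 + (innerSL ℝ b2).smulRight b2 with hL
  have e1 : ∀ v, L v = (inner ℝ b1 v : ℝ) • b1 + (inner ℝ b2 v : ℝ) • b2 := fun v => by
    simp [hL]
  have h1 : (fun w => L (X1 w)) =ᶠ[𝓝 z] X1 := by
    filter_upwards [hU.mem_nhds hz] with w hw
    rw [e1]; exact (hp.eq w hw).symm
  have h2 := pd_congr h1 j
  rw [pd_clm L (diff_of s1), e1] at h2
  exact h2.symm

section
variable {b1 b2 : E m}

/-- the scalar functions -/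
noncomputable def sc (b : E m) (F : E n → E m) : E n → ℝ := fun w => inner ℝ b (F w)

lemma sc_smooth {F : E n → E m} (b : E m) (hF : ContDiffAt ℝ ∞ F z) :
    ContDiffAt ℝ ∞ (sc b F) z := contDiffAt_const.inner ℝ hF

lemma pd_sc {F : E n → E m} (b : E m) (hF : ContDiffAt ℝ ∞ F z) (j : Fin n) :
    pd j (sc b F) z = inner ℝ b (pd j F z) := pd_clm (innerSL ℝ b) (diff_of hF) j

lemma lap_sc {F : E n → E m} (b : E m) (hF : ContDiffAt ℝ ∞ F z) :
    lap X (sc b F) z = inner ℝ b (lap X F z) := lap_clm (innerSL ℝ b) hF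

lemma eu (h : LD U X X1 X2 c l1 l2 N0) (hz : z ∈ U) (b : E m) :
    lap X (sc b X1) z = l1 * sc b X1 z := by
  rw [lap_sc b (h.s1 z hz), h.e1 z hz, real_inner_smul_right]; rfl

lemma eY (h : LD U X X1 X2 c l1 l2 N0) (hz : z ∈ U) (b : E m) :
    lap X (sc b (yv l1 l2 X1 X2)) z
      = l2 * sc b (yv l1 l2 X1 X2) z - l1 * (l2 - l1) * sc b X1 z := by
  rw [lap_sc b (h.sy hz), h.lapy hz]
  unfold sc yv
  rw [inner_add_right, inner_add_right, real_inner_smul_right, real_inner_smul_right,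
    real_inner_smul_right, real_inner_smul_right]
  ring

lemma ort (h : LD U X X1 X2 c l1 l2 N0) (hp : Pl U X1 b1 b2) (hz : z ∈ U) (j : Fin n) :
    sc b1 (yv l1 l2 X1 X2) z * pd j (sc b1 X1) z
      + sc b2 (yv l1 l2 X1 X2) z * pd j (sc b2 X1) z = 0 := by
  have h1 := h.inner_y_1 hz j
  rw [hp.pd h.op hz (h.s1 z hz) j, inner_add_right, real_inner_smul_right,
    real_inner_smul_right] at h1
  rw [pd_sc b1 (h.s1 z hz), pd_sc b2 (h.s1 z hz)]
  unfold sc
  rw [real_inner_comm, real_inner_comm _ b2]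
  linear_combination h1

lemma zero_of_Y (h : LD U X X1 X2 c l1 l2 N0) {V : Set (E n)} (hV : IsOpen V) (hVU : V ⊆ U)
    (b : E m) (h0 : ∀ w ∈ V, sc b (yv l1 l2 X1 X2) w = 0) : ∀ w ∈ V, sc b X1 w = 0 := by
  intro w hw
  have h1 := eY h (hVU hw) b
  have h2 : sc b (yv l1 l2 X1 X2) =ᶠ[𝓝 w] fun _ => (0 : ℝ) := by
    filter_upwards [hV.mem_nhds hw] with v hv using h0 v hv
  rw [lap_congr h2, lap_const, h0 w hw, mul_zero, zero_sub] at h1
  have h3 : l1 * (l2 - l1) ≠ 0 := mul_ne_zero h.ne1 (sub_ne_zero.2 h.ne.symm)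
  exact (mul_eq_zero.1 (neg_eq_zero.1 h1.symm)).resolve_left h3

lemma par (h : LD U X X1 X2 c l1 l2 N0) (hp : Pl U X1 b1 b2) (hz : z ∈ U) (i j : Fin n) :
    pd i (sc b1 X1) z * pd j (sc b2 X1) z = pd j (sc b1 X1) z * pd i (sc b2 X1) z := by
  by_contra hcon
  set f : E n → ℝ := fun z => pd i (sc b1 X1) z * pd j (sc b2 X1) z
    - pd j (sc b1 X1) z * pd i (sc b2 X1) z with hf
  have sf : SV U f := fun w hw => by
    have a1 := pd_smooth (sc_smooth b1 (h.s1 w hw)) i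
    have a2 := pd_smooth (sc_smooth b2 (h.s1 w hw)) j
    have a3 := pd_smooth (sc_smooth b1 (h.s1 w hw)) j
    have a4 := pd_smooth (sc_smooth b2 (h.s1 w hw)) i
    exact (a1.mul a2).sub (a3.mul a4)
  set V : Set (E n) := {z | z ∈ U ∧ f z ≠ 0} with hV
  have oV : IsOpen V := open_ne h.op sf
  have hVU : V ⊆ U := fun z hz => hz.1
  have hY1 : ∀ w ∈ V, sc b1 (yv l1 l2 X1 X2) w = 0 := by
    intro w hw
    have o1 := ort h hp hw.1 i
    have o2 := ort h hp hw.1 j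
    have : sc b1 (yv l1 l2 X1 X2) w * f w = 0 := by
      simp only [hf]
      linear_combination pd j (sc b2 X1) w * o1 - pd i (sc b2 X1) w * o2
    exact (mul_eq_zero.1 this).resolve_right hw.2
  have hY2 : ∀ w ∈ V, sc b2 (yv l1 l2 X1 X2) w = 0 := by
    intro w hw
    have o1 := ort h hp hw.1 i
    have o2 := ort h hp hw.1 j
    have : sc b2 (yv l1 l2 X1 X2) w * f w = 0 := by
      simp only [hf]
      linear_combination pd i (sc b1 X1) w * o2 - pd j (sc b1 X1) w * o1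
    exact (mul_eq_zero.1 this).resolve_right hw.2
  have u1 := zero_of_Y h oV hVU b1 hY1
  have hzV : z ∈ V := ⟨hz, by simp only [hf]; exact sub_ne_zero.2 hcon⟩
  have p1 : ∀ k, pd k (sc b1 X1) z = 0 := fun k => by
    rw [pd_congr_on oV (g := fun _ => (0 : ℝ)) u1 hzV, pd_const]
  refine hcon ?_
  rw [p1, p1]; ring

lemma gin_tr (h : LD U X X1 X2 c l1 l2 N0) (hp : Pl U X1 b1 b2) (hz : z ∈ U) :
    gin X (sc b1 X1) (sc b1 X1) z + gin X (sc b2 X1) (sc b2 X1) z = tr X X1 X1 z := by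
  unfold gin tr
  rw [← Finset.sum_add_distrib]
  refine Finset.sum_congr rfl fun i _ => ?_
  rw [← Finset.sum_add_distrib]
  refine Finset.sum_congr rfl fun j _ => ?_
  have e := hp.pd h.op hz (h.s1 z hz) i
  have e2 : (inner ℝ (pd i X1 z) (pd j X1 z) : ℝ)
      = inner ℝ b1 (pd i X1 z) * inner ℝ b1 (pd j X1 z)
        + inner ℝ b2 (pd i X1 z) * inner ℝ b2 (pd j X1 z) := by
    conv_lhs => rw [e]
    rw [inner_add_left, real_inner_smul_left, real_inner_smul_left]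
  rw [e2, pd_sc b1 (h.s1 z hz), pd_sc b2 (h.s1 z hz), pd_sc b1 (h.s1 z hz), pd_sc b2 (h.s1 z hz)]
  ring

lemma inner_yX (hp : Pl U X1 b1 b2) (hz : z ∈ U) :
    sc b1 (yv l1 l2 X1 X2) z * sc b1 X1 z + sc b2 (yv l1 l2 X1 X2) z * sc b2 X1 z
      = (inner ℝ (yv l1 l2 X1 X2 z) (X1 z) : ℝ) := by
  conv_rhs => rw [hp.eq z hz]
  rw [inner_add_right, real_inner_smul_right, real_inner_smul_right]
  unfold sc
  rw [real_inner_comm b1 (yv l1 l2 X1 X2 z), real_inner_comm b2 (yv l1 l2 X1 X2 z)]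
  ring

/-- scalar data near a point with `∂_κ ⟨b1, x1⟩ ≠ 0` -/
lemma toPD (h : LD U X X1 X2 c l1 l2 N0) (hp : Pl U X1 b1 b2) {V : Set (E n)} (hV : IsOpen V)
    (hVU : V ⊆ U) {κ : Fin n} (hκ : ∀ w ∈ V, pd κ (sc b1 X1) w ≠ 0) :
    PD V X κ (sc b1 X1) (sc b2 X1) (sc b1 (yv l1 l2 X1 X2)) (sc b2 (yv l1 l2 X1 X2)) l1 l2
      (l2 * (N0 ^ 2 - l2 * n) / (l1 - l2)) where
  op := hV
  sX := fun z hz => h.sX (hVU hz)
  imm := fun z hz => h.imm z (hVU hz)
  su1 := fun z hz => sc_smooth b1 (h.s1 z (hVU hz))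
  su2 := fun z hz => sc_smooth b2 (h.s1 z (hVU hz))
  sY1 := fun z hz => sc_smooth b1 (h.sy (hVU hz))
  sY2 := fun z hz => sc_smooth b2 (h.sy (hVU hz))
  eu1 := fun z hz => eu h (hVU hz) b1
  eu2 := fun z hz => eu h (hVU hz) b2
  eY1 := fun z hz => eY h (hVU hz) b1
  eY2 := fun z hz => eY h (hVU hz) b2
  ort := fun z hz j => ort h hp (hVU hz) j
  par := fun z hz i j => par h hp (hVU hz) i j
  en := fun z hz => by rw [gin_tr h hp (hVU hz), inner_yX hp (hVU hz)]; exact energy h (hVU hz)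
  nz := hκ
  ne := h.ne
  ne1 := h.ne1
  ne2 := h.ne2

end

end

end Pool.Agent.PLC
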