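import Pool.Agent.PLC.Eqs2

/-!
# The planar component: somewhere `dw = l1 (u1 du1 + u2 du2)`
-/

open scoped Manifold ContDiff Topology

namespace Pool.Agent.PLC

open Pool.Agent.Lib_helper91.CMC2 Pool.Agent.Lib_helper25.DA

section
variable {n m : ℕ} {V : Set (E n)} {f M : E n → ℝ} {z : E n}

lemma open_ne (hV : IsOpen V) (sf : SV V f) : IsOpen {z | z ∈ V ∧ f z ≠ 0} := by
  rw [isOpen_iff_mem_nhds]
  rintro z ⟨hz, h0⟩
  filter_upwards [hV.mem_nhds hz, (sf z hz).continuousAt.eventually_ne h0] with w hw hw' using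
    ⟨hw, hw'⟩

lemma lap_const_mul {X : E n → E m} (hV : IsOpen V) (sM : SV V M) (sf : SV V f)
    (h0 : ∀ w ∈ V, ∀ j, pd j M w = 0) (hz : z ∈ V) :
    lap X (fun w => M w * f w) z = M z * lap X f z := by
  have key : ∀ w ∈ V, ∀ j, pd j (fun w => M w * f w) w = M w * pd j f w := by
    intro w hw j
    rw [pd_mul' (sM w hw) (sf w hw), h0 w hw j]; ring
  have key2 : ∀ i j, pd i (pd j (fun w => M w * f w)) z = M z * pd i (pd j f) z := by
    intro i j
    rw [pd_congr_on hV (fun w hw => key w hw j) hz i,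
      pd_mul' (f := M) (g := pd j f) (sM z hz) (pd_smooth (sf z hz) j), h0 z hz i]
    ring
  have term : ∀ i j, (metric X z)⁻¹ i j • (pd i (pd j (fun w => M w * f w)) z
      - ∑ l, christoffel X z i j l • pd l (fun w => M w * f w) z)
      = M z * ((metric X z)⁻¹ i j • (pd i (pd j f) z
          - ∑ l, christoffel X z i j l • pd l f z)) := by
    intro i j
    have e : ∑ l, christoffel X z i j l • pd l (fun w => M w * f w) z
        = M z * ∑ l, christoffel X z i j l • pd l f z := by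
      rw [Finset.mul_sum]
      refine Finset.sum_congr rfl fun l _ => ?_
      rw [key z hz l]; simp only [smul_eq_mul]; ring
    rw [key2 i j, e]; simp only [smul_eq_mul]; ring
  unfold lap
  simp only [term, ← Finset.mul_sum]
  ring

end

namespace PD
variable {n m : ℕ} {V : Set (E n)} {X : E n → E m} {κ : Fin n} {u1 u2 Y1 Y2 : E n → ℝ}
  {l1 l2 k0 : ℝ} {z : E n}

/-- the curve is curved somewhere -/
lemma exists_curved (h : PD V X κ u1 u2 Y1 Y2 l1 l2 k0) (hne : V.Nonempty) :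
    ∃ z ∈ V, der κ u1 (der κ u1 u2) z ≠ 0 := by
  by_contra hcon
  push Not at hcon
  have hM : ∀ w ∈ V, ∀ j, pd j (der κ u1 u2) w = 0 := by
    intro w hw j
    rw [h.depM w hw j, hcon w hw, zero_mul]
  have hu : ∀ w ∈ V, u1 w = 0 := by
    intro w hw
    have h1 := h.e1 hw
    rw [hcon w hw, zero_mul, sub_zero] at h1
    have h2 : lap X Y1 w = lap X (fun w => -1 * (der κ u1 u2 w * Y2 w)) w :=
      lap_congr (by filter_upwards [h.op.mem_nhds hw] with v hv using h.Y1_eq hv)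
    have h3 : lap X (fun w => -1 * (der κ u1 u2 w * Y2 w)) w
        = -1 * lap X (fun w => der κ u1 u2 w * Y2 w) w :=
      lap_const_mul (M := fun _ => (-1 : ℝ)) h.op (SV.const _) (h.sM.mul h.sY2)
        (fun w _ j => pd_const _ _ _) hw
    rw [h3, lap_const_mul h.op h.sM h.sY2 hM hw, h.eY1 w hw, h.eY2 w hw, h.Y1_eq hw] at h2
    have h4 : l1 * (l2 - l1) * (1 + der κ u1 u2 w * der κ u1 u2 w) * u1 w = 0 := by
      linear_combination -h2 - (l2 - l1) * der κ u1 u2 w * h1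
    have h5 : (1 + der κ u1 u2 w * der κ u1 u2 w) ≠ 0 := by
      nlinarith [mul_self_nonneg (der κ u1 u2 w)]
    rcases mul_eq_zero.1 h4 with h6 | h6
    · exact absurd h6 (mul_ne_zero (mul_ne_zero h.ne1 (sub_ne_zero.2 h.ne.symm)) h5)
    · exact h6
  obtain ⟨z, hz⟩ := hne
  refine h.nz z hz ?_
  rw [pd_congr_on h.op (g := fun _ => (0 : ℝ)) hu hz, pd_const]

theorem main (h : PD V X κ u1 u2 Y1 Y2 l1 l2 k0) (hne : V.Nonempty) :
    ∃ z ∈ V, ∀ j, pd j (w X κ u1 u2) z = l1 * (u1 z * pd j u1 z + u2 z * pd j u2 z) := by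
  by_contra hcon
  push Not at hcon
  have hD : l2 - l1 ≠ 0 := sub_ne_zero.2 h.ne.symm
  obtain ⟨z0, hz0, hc0⟩ := h.exists_curved hne
  set V1 : Set (E n) := {z | z ∈ V ∧ der κ u1 (der κ u1 u2) z ≠ 0} with hV1
  have o1 : IsOpen V1 := open_ne h.op h.sM1
  have h1 := h.mono (V' := V1) o1 (fun z hz => hz.1)
  have hm : ∀ z ∈ V1, der κ u1 (der κ u1 u2) z ≠ 0 := fun z hz => hz.2
  have H : ∀ z ∈ V1, der κ u1 (w X κ u1 u2) z ≠ l1 * (u1 z + der κ u1 u2 z * u2 z) := by
    intro z hz hc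
    obtain ⟨j, hj⟩ := hcon z hz.1
    refine hj ?_
    rw [h1.depw hm z hz j, hc, h1.dep2 z hz j]; ring
  -- if `(l2 - l1) w + k0 = 0` on an open set, then `w' = 0` there
  have hflat : ∀ V' : Set (E n), IsOpen V' → V' ⊆ V1 →
      (∀ z ∈ V', (l2 - l1) * w X κ u1 u2 z + k0 = 0) →
      ∀ z ∈ V', der κ u1 (w X κ u1 u2) z = 0 := by
    intro V' o' hs hf z hz
    have h2 := der_congr_on (k := κ) (u := u1) o' hf hz
    have a1 := h1.sw z (hs hz)
    simp (disch := fun_prop) only [der_add, der_mul, der_const] at h2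
    have h3 : (l2 - l1) * der κ u1 (w X κ u1 u2) z = 0 := by linear_combination h2
    exact (mul_eq_zero.1 h3).resolve_left hD
  have hz01 : z0 ∈ V1 := ⟨hz0, hc0⟩
  by_cases hq : ∃ z ∈ V1, u1 z + der κ u1 u2 z * u2 z ≠ 0
  · obtain ⟨z1, hz1, hq1⟩ := hq
    set V2 : Set (E n) := {z | z ∈ V1 ∧ u1 z + der κ u1 u2 z * u2 z ≠ 0} with hV2
    have o2 : IsOpen V2 := open_ne o1 (h1.su1.add (h1.sM.mul h1.su2))
    by_cases hk : ∃ z ∈ V2, (l2 - l1) * w X κ u1 u2 z + k0 ≠ 0
    · obtain ⟨z2, hz2, hk2⟩ := hk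
      set V3 : Set (E n) := {z | z ∈ V2 ∧ (l2 - l1) * w X κ u1 u2 z + k0 ≠ 0} with hV3
      have s3 : V3 ⊆ V1 := fun z hz => hz.1.1
      have o3 : IsOpen V3 := open_ne (f := fun z => (l2 - l1) * w X κ u1 u2 z + k0) o2
        (((SV.const _).mul (h1.sw.mono fun z hz => hz.1)).add (SV.const _))
      have h3 := h1.mono (V' := V3) o3 s3
      exact h3.contra (fun z hz => hm z (s3 hz)) ⟨z2, hz2, hk2⟩ (fun z hz => hz.1.2)
        (fun z hz => hz.2)
    · push Not at hk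
      have s2 : V2 ⊆ V1 := fun z hz => hz.1
      have h2 := hflat V2 o2 s2 hk z1 ⟨hz1, hq1⟩
      have h3 := h1.eT hm hz1
      have h4 := hk z1 ⟨hz1, hq1⟩
      rw [h2, mul_zero] at h3
      have h5 : l1 * (u1 z1 + der κ u1 u2 z1 * u2 z1) ≠ 0 := mul_ne_zero h.ne1 hq1
      have h6 : (l2 - l1) * w X κ u1 u2 z1 - 2 * k0 = 0 :=
        (mul_eq_zero.1 h3.symm).resolve_left h5
      have h7 : (l2 - l1) * w X κ u1 u2 z1 = 0 := by linarith
      exact (mul_ne_zero hD (h1.wpos hz1).ne') h7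
  · push Not at hq
    have hf : ∀ z ∈ V1, (l2 - l1) * w X κ u1 u2 z + k0 = 0 := by
      intro z hz
      have h2 := h1.eT hm hz
      have h3 := H z hz
      rw [hq z hz, mul_zero] at h3
      rw [hq z hz, mul_zero, zero_mul] at h2
      exact (mul_eq_zero.1 h2).resolve_right h3
    refine H z0 hz01 ?_
    rw [hflat V1 o1 subset_rfl hf z0 hz01, hq z0 hz01, mul_zero]

end PD

end Pool.Agent.PLC
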