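import Pool.Agent.PLC.Glob

/-!
# A component of rank one is locally planar
-/

open scoped Manifold ContDiff Topology
open Module

namespace Pool.Agent.PLC

open Pool.Agent.Lib_helper91.CMC2 Pool.Agent.Lib_helper25.DA
open Pool.Agent.Lib_helper91.CMC2.LD (yv)

section
variable {n m : ℕ} {U : Set (E n)} {X X1 X2 : E n → E m} {c : E m} {l1 l2 N0 : ℝ} {z : E n}

/-- a function with zero derivatives on a ball is constant -/
lemma const_on_ball {f : E n → ℝ} {z1 : E n} {r : ℝ}
    (sf : SV (Metric.ball z1 r) f) (h0 : ∀ w ∈ Metric.ball z1 r, ∀ j, pd j f w = 0)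
    {w : E n} (hw : w ∈ Metric.ball z1 r) : f w = f z1 := by
  have hr : 0 < r := Metric.pos_of_mem_ball hw
  refine Metric.isOpen_ball.is_const_of_fderiv_eq_zero (𝕜 := ℝ)
    (convex_ball z1 r).isPreconnected ?_ ?_ hw (Metric.mem_ball_self hr)
  · intro v hv
    exact (diff_of (sf v hv)).differentiableWithinAt
  · intro v hv
    ext u
    rw [fderiv_eq_sum]
    refine Finset.sum_eq_zero fun i _ => ?_
    rw [h0 v hv i, smul_zero]

/-- rank at most one, in terms of `b` -/
def R1 (U : Set (E n)) (X1 : E n → E m) : Prop :=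
  ∀ w ∈ U, ∀ b v : E m, ∀ i j, pd i (sc b X1) w * pd j (sc v X1) w
    = pd j (sc b X1) w * pd i (sc v X1) w

/-- near a suitable point of any open set the component is planar -/
lemma locally_planar (h : LD U X X1 X2 c l1 l2 N0) (hR : R1 U X1) {V : Set (E n)}
    (hV : IsOpen V) (hVU : V ⊆ U) {b : E m} {κ : Fin n} (hκ : ∀ w ∈ V, pd κ (sc b X1) w ≠ 0)
    (hne : V.Nonempty) :
    ∃ z1 ∈ V, ∃ r > 0, Metric.ball z1 r ⊆ V ∧ ∃ K : Submodule ℝ (E m), finrank ℝ K ≤ 2 ∧
      ∀ w ∈ Metric.ball z1 r, X1 w ∈ K := by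
  set u1 : E n → ℝ := sc b X1 with hu1
  have su : ∀ v : E m, SV V (sc v X1) := fun v w hw => sc_smooth v (h.s1 w (hVU hw))
  have su1 : SV V u1 := su b
  have sX : ∀ w ∈ V, ContDiffAt ℝ ∞ X w := fun w hw => h.sX (hVU hw)
  have dep : ∀ v : E m, Dep V κ u1 (sc v X1) := by
    intro v w hw j
    have h1 := hR w (hVU hw) b v κ j
    have h2 := hκ w hw
    unfold der
    field_simp
    linarith
  have sd : ∀ v : E m, SV V (der κ u1 (sc v X1)) := fun v => (su v).derv su1 hκ
  have depd : ∀ v : E m, Dep V κ u1 (der κ u1 (sc v X1)) := fun v =>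
    (dep v).derv hV (su v) su1 hκ
  have W0 : ∀ w ∈ V, gin X u1 u1 w ≠ 0 := fun w hw =>
    (gin_pos (h.imm w (hVU hw)) (hκ w hw)).ne'
  have e1 : ∀ v : E m, ∀ w ∈ V, l1 * sc v X1 w = l1 * u1 w * der κ u1 (sc v X1) w
      - der κ u1 (der κ u1 (sc v X1)) w * gin X u1 u1 w := by
    intro v w hw
    have h1 := lap_dep (X := X) hV (dep v) (su v) su1 hκ hw
    rw [eu h (hVU hw) v, eu h (hVU hw) b] at h1
    linear_combination h1
  -- the bivector `x1 ∧ x1'`
  set Ω : E m → E m → E n → ℝ := fun v v' w =>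
    sc v X1 w * der κ u1 (sc v' X1) w - sc v' X1 w * der κ u1 (sc v X1) w with hΩ
  have sΩ : ∀ v v', SV V (Ω v v') := fun v v' => ((su v).mul (sd v')).sub ((su v').mul (sd v))
  have pΩ : ∀ v v', ∀ w ∈ V, ∀ j, gin X u1 u1 w * pd j (Ω v v') w
      = l1 * u1 w * Ω v v' w * pd j u1 w := by
    intro v v' w hw j
    have a1 : pd j (Ω v v') w = (pd j (sc v X1) w * der κ u1 (sc v' X1) w
        + sc v X1 w * pd j (der κ u1 (sc v' X1)) w)
        - (pd j (sc v' X1) w * der κ u1 (sc v X1) w
        + sc v' X1 w * pd j (der κ u1 (sc v X1)) w) := by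
      rw [hΩ]
      rw [pd_sub' (((su v w hw)).mul (sd v' w hw)) ((su v' w hw).mul (sd v w hw)),
        pd_mul' (su v w hw) (sd v' w hw), pd_mul' (su v' w hw) (sd v w hw)]
    rw [a1, dep v w hw j, dep v' w hw j, depd v w hw j, depd v' w hw j]
    have b1 := e1 v w hw
    have b2 := e1 v' w hw
    simp only [hΩ]
    linear_combination (sc v X1 w * pd j u1 w) * b2 - (sc v' X1 w * pd j u1 w) * b1
  by_cases hex : ∃ z1 ∈ V, ∃ v0 v0' : E m, Ω v0 v0' z1 ≠ 0
  · obtain ⟨z1, hz1, v0, v0', h0⟩ := hex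
    have o1 : IsOpen {z | z ∈ V ∧ Ω v0 v0' z ≠ 0} := open_ne hV (sΩ v0 v0')
    obtain ⟨r, hr, hball⟩ := Metric.isOpen_iff.1 o1 z1 ⟨hz1, h0⟩
    have hBV : Metric.ball z1 r ⊆ V := fun w hw => (hball hw).1
    have hz1B : z1 ∈ Metric.ball z1 r := Metric.mem_ball_self hr
    refine ⟨z1, hz1, r, hr, hBV, Submodule.span ℝ {X1 z1, pd κ X1 z1}, ?_, ?_⟩
    · have hc := finrank_span_finset_le_card (R := ℝ) ({X1 z1, pd κ X1 z1} : Finset (E m))
      rw [Finset.coe_pair] at hc
      exact hc.trans Finset.card_le_two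
    · intro w hw
      rw [← Submodule.orthogonal_orthogonal (Submodule.span ℝ {X1 z1, pd κ X1 z1}),
        Submodule.mem_orthogonal]
      intro v hv
      have hv1 : sc v X1 z1 = 0 := (Submodule.mem_orthogonal' _ v).1 hv _
        (Submodule.subset_span (by simp))
      have hv2 : inner ℝ v (pd κ X1 z1) = (0 : ℝ) := (Submodule.mem_orthogonal' _ v).1 hv _
        (Submodule.subset_span (by simp))
      have hv3 : der κ u1 (sc v X1) z1 = 0 := by
        unfold der
        rw [pd_sc v (h.s1 z1 (hVU hz1)), hv2, zero_div]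
      -- the ratio is constant
      have ratio : ∀ v', Ω v v' w = 0 := by
        intro v'
        have c1 : (fun w => Ω v v' w / Ω v0 v0' w) w = (fun w => Ω v v' w / Ω v0 v0' w) z1 := by
          refine const_on_ball (r := r) (fun w hw => (sΩ v v' w (hBV hw)).div
            (sΩ v0 v0' w (hBV hw)) (hball hw).2) ?_ hw
          intro t ht j
          have q0 : Ω v0 v0' t ≠ 0 := (hball ht).2
          have st : ContDiffAt ℝ ∞ (fun w => Ω v v' w / Ω v0 v0' w) t :=
            (sΩ v v' t (hBV ht)).div (sΩ v0 v0' t (hBV ht)) q0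
          have q1 : pd j (fun w => (Ω v v' w / Ω v0 v0' w) * Ω v0 v0' w) t = pd j (Ω v v') t :=
            pd_congr_on Metric.isOpen_ball (fun s hs => div_mul_cancel₀ _ (hball hs).2) ht j
          rw [pd_mul' st (sΩ v0 v0' t (hBV ht))] at q1
          have q2 := pΩ v v' t (hBV ht) j
          have q3 := pΩ v0 v0' t (hBV ht) j
          have q4 := W0 t (hBV ht)
          have q5 : gin X u1 u1 t * Ω v0 v0' t * pd j (fun w => Ω v v' w / Ω v0 v0' w) t = 0 := by
            have q6 : (Ω v v' t / Ω v0 v0' t) * Ω v0 v0' t = Ω v v' t := div_mul_cancel₀ _ q0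
            linear_combination (gin X u1 u1 t) * q1 + q2 - (Ω v v' t / Ω v0 v0' t) * q3
              - (l1 * u1 t * pd j u1 t) * q6
          exact (mul_eq_zero.1 q5).resolve_left (mul_ne_zero q4 q0)
        have c2 : Ω v v' z1 = 0 := by
          simp only [hΩ]
          rw [hv1, hv3]; ring
        simp only [c2, zero_div] at c1
        exact (div_eq_zero_iff.1 c1).resolve_right (hball hw).2
      have r1 := ratio v0
      have r2 := ratio v0'
      have q0 : Ω v0 v0' w ≠ 0 := (hball hw).2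
      have q1 : sc v X1 w * Ω v0 v0' w = 0 := by
        simp only [hΩ] at r1 r2 ⊢
        linear_combination (sc v0 X1 w) * r2 - (sc v0' X1 w) * r1
      exact (mul_eq_zero.1 q1).resolve_right q0
  · push Not at hex
    obtain ⟨z1, hz1⟩ := hne
    obtain ⟨r, hr, hball⟩ := Metric.isOpen_iff.1 hV z1 hz1
    refine ⟨z1, hz1, r, hr, hball, Submodule.span ℝ {pd κ X1 z1}, ?_, ?_⟩
    · refine (finrank_span_le_card _).trans ?_
      simp
    · intro w hw
      rw [← Submodule.orthogonal_orthogonal (Submodule.span ℝ {pd κ X1 z1}),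
        Submodule.mem_orthogonal]
      intro v hv
      have hv2 : inner ℝ v (pd κ X1 z1) = (0 : ℝ) := (Submodule.mem_orthogonal' _ v).1 hv _
        (Submodule.subset_span (by simp))
      have hv3 : der κ u1 (sc v X1) z1 = 0 := by
        unfold der
        rw [pd_sc v (h.s1 z1 (hVU hz1)), hv2, zero_div]
      have hφ : ∀ t ∈ V, sc v X1 t = u1 t * der κ u1 (sc v X1) t := by
        intro t ht
        have q1 := hex t ht v b
        simp only [hΩ] at q1
        have q2 : der κ u1 (sc b X1) t = 1 := der_self (hκ t ht)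
        rw [q2] at q1
        linear_combination q1
      have hd : ∀ t ∈ V, ∀ j, pd j (der κ u1 (sc v X1)) t = 0 := by
        intro t ht j
        have q1 := e1 v t ht
        rw [hφ t ht] at q1
        have q2 : der κ u1 (der κ u1 (sc v X1)) t * gin X u1 u1 t = 0 := by
          linear_combination q1
        rw [depd v t ht j, (mul_eq_zero.1 q2).resolve_right (W0 t ht), zero_mul]
      have q3 := const_on_ball (r := r) ((sd v).mono hball) (fun t ht => hd t (hball ht)) hw
      have q4 := hφ w (hball hw)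
      rw [q3, hv3, mul_zero] at q4
      exact q4

end

end Pool.Agent.PLC
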