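import Pool.Agent.PLC.Rank

/-!
# Immersions with a component of rank at most one lie in a hypersphere centred at `c`
-/

open scoped Manifold ContDiff Topology
open Module

namespace Pool.Agent.PLC

open Pool.Agent.Lib_helper91.CMC2 Pool.Agent.Lib_helper25.DA
open Pool.Agent.Lib_helper91.CMC2.LD (yv)

section
variable {n m : ℕ} {U : Set (E n)} {X X1 X2 : E n → E m} {c : E m} {l1 l2 N0 : ℝ} {z : E n}

theorem rad_const_rank (h : LD U X X1 X2 c l1 l2 N0) (hR : R1 U X1) :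
    ∀ z ∈ U, ∀ j, pd j (fun w => (inner ℝ (X w - c) (X w - c) : ℝ)) z = 0 := by
  by_contra hcon
  push Not at hcon
  obtain ⟨z0, hz0, j0, hj0⟩ := hcon
  set F : E n → ℝ := fun w => (inner ℝ (X w - c) (X w - c) : ℝ) with hF
  have sF : SV U F := fun w hw => by
    have hs : ContDiffAt ℝ ∞ (fun w => X w - c) w := (h.sX hw).sub contDiffAt_const
    exact hs.inner ℝ hs
  set V0 : Set (E n) := {z | z ∈ U ∧ pd j0 F z ≠ 0} with hV0
  have o0 : IsOpen V0 := open_ne h.op (sF.pdv j0)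
  have s0 : V0 ⊆ U := fun z hz => hz.1
  have su : ∀ b : E m, SV V0 (sc b X1) := fun b w hw => sc_smooth b (h.s1 w (s0 hw))
  by_cases hA : ∃ b : E m, ∃ κ : Fin n, ∃ z ∈ V0, pd κ (sc b X1) z ≠ 0
  · obtain ⟨b, κ, z1, hz1, hne1⟩ := hA
    set V1 : Set (E n) := {z | z ∈ V0 ∧ pd κ (sc b X1) z ≠ 0} with hV1
    have o1 : IsOpen V1 := open_ne o0 ((su b).pdv κ)
    obtain ⟨z2, _, r, hr, hB, K, hK, hXK⟩ := locally_planar h hR o1 (fun z hz => s0 hz.1)
      (b := b) (κ := κ) (fun z hz => hz.2) ⟨z1, hz1, hne1⟩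
    obtain ⟨b1, b2, hb⟩ := exists_pair K hK
    have hP : Pl (Metric.ball z2 r) X1 b1 b2 := ⟨fun w hw => hb _ (hXK w hw)⟩
    have hL := h.mono (V := Metric.ball z2 r) Metric.isOpen_ball (fun w hw => s0 (hB hw).1)
    have h2 := Metric.mem_ball_self (x := z2) hr
    exact (hB h2).1.2 (rad_const hL hP z2 h2 j0)
  · push Not at hA
    have hz0V : z0 ∈ V0 := ⟨hz0, hj0⟩
    have hd : ∀ w ∈ V0, ∀ j, pd j X1 w = 0 := by
      intro w hw j
      have e1 := hA (pd j X1 w) j w hw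
      rw [pd_sc _ (h.s1 w (s0 hw))] at e1
      exact inner_self_eq_zero.1 e1
    have hX1 : ∀ w ∈ V0, X1 w = 0 := by
      intro w hw
      have h1 := h.e1 w (s0 hw)
      rw [lap_zero_of_pd o0 hd hw] at h1
      exact (smul_eq_zero.1 h1.symm).resolve_left h.ne1
    have hFc : ∀ w ∈ V0, F w = N0 ^ 2 / l2 ^ 2 := by
      intro w hw
      have h1 := h.normy (s0 hw)
      unfold yv at h1
      rw [hX1 w hw, smul_zero, zero_add, real_inner_smul_left, real_inner_smul_right] at h1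
      have e2 : X w - c = X2 w := by rw [h.dec w (s0 hw), hX1 w hw]; abel
      simp only [hF]
      rw [e2, eq_div_iff (pow_ne_zero 2 h.ne2), ← h1]
      ring
    refine hj0 ?_
    rw [pd_congr_on o0 (g := fun _ => N0 ^ 2 / l2 ^ 2) hFc hz0V, pd_const]

lemma ld_symm (h : LD U X X1 X2 c l1 l2 N0) : LD U X X2 X1 c l2 l1 N0 :=
  ⟨h.op, h.s2, h.s1, fun z hz => by rw [h.dec z hz]; abel, h.imm, h.e2, h.e1, h.cmc,
    h.ne.symm, h.ne2, h.ne1⟩

/-- at every point one of the two components has rank at most one -/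
theorem rad_const_mixed (h : LD U X X1 X2 c l1 l2 N0)
    (hR : ∀ w ∈ U, R1 {w} X1 ∨ R1 {w} X2) :
    ∀ z ∈ U, ∀ j, pd j (fun w => (inner ℝ (X w - c) (X w - c) : ℝ)) z = 0 := by
  by_contra hcon
  push Not at hcon
  obtain ⟨z0, hz0, j0, hj0⟩ := hcon
  set F : E n → ℝ := fun w => (inner ℝ (X w - c) (X w - c) : ℝ) with hF
  have sF : SV U F := fun w hw => by
    have hs : ContDiffAt ℝ ∞ (fun w => X w - c) w := (h.sX hw).sub contDiffAt_const
    exact hs.inner ℝ hs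
  set V0 : Set (E n) := {z | z ∈ U ∧ pd j0 F z ≠ 0} with hV0
  have o0 : IsOpen V0 := open_ne h.op (sF.pdv j0)
  have s0 : V0 ⊆ U := fun z hz => hz.1
  have su : ∀ b : E m, SV V0 (sc b X1) := fun b w hw => sc_smooth b (h.s1 w (s0 hw))
  by_cases hA : ∃ z ∈ V0, ¬ R1 {z} X1
  · obtain ⟨z, hz, hz1⟩ := hA
    unfold R1 at hz1
    push Not at hz1
    obtain ⟨w, rfl, b, v, i, j, hne⟩ := hz1
    set G : E n → ℝ := fun w => pd i (sc b X1) w * pd j (sc v X1) w
      - pd j (sc b X1) w * pd i (sc v X1) w with hG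
    have sG : SV V0 G := (((su b).pdv i).mul ((su v).pdv j)).sub
      (((su b).pdv j).mul ((su v).pdv i))
    have o1 : IsOpen {z | z ∈ V0 ∧ G z ≠ 0} := open_ne o0 sG
    have hw1 : w ∈ {z | z ∈ V0 ∧ G z ≠ 0} := ⟨hz, sub_ne_zero.2 hne⟩
    have hR2 : R1 {z | z ∈ V0 ∧ G z ≠ 0} X2 := by
      intro t ht b' v' i' j'
      rcases hR t (s0 ht.1) with h1 | h1
      · exact absurd (sub_eq_zero.2 (h1 t rfl b v i j)) ht.2
      · exact h1 t rfl b' v' i' j'
    have hL := (ld_symm h).mono (V := {z | z ∈ V0 ∧ G z ≠ 0}) o1 (fun w hw => s0 hw.1)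
    exact hz.2 (rad_const_rank hL hR2 w hw1 j0)
  · push Not at hA
    have hR1 : R1 V0 X1 := fun w hw => hA w hw w rfl
    exact hj0 (rad_const_rank (h.mono o0 s0) hR1 z0 ⟨hz0, hj0⟩ j0)

/-- the differential of rank at most one, in terms of the coordinate derivatives -/
lemma R1_of_finrank {X1 : E n → E m} {z : E n} (s1 : ContDiffAt ℝ ∞ X1 z)
    (hr : finrank ℝ (LinearMap.range (fderiv ℝ X1 z : E n →ₗ[ℝ] E m)) ≤ 1) :
    R1 {z} X1 := by
  rintro w rfl b v i j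
  obtain ⟨a, ha⟩ := finrank_le_one_iff.1 hr
  have key : ∀ k : Fin n, ∃ t : ℝ, pd k X1 w = t • (a : E m) := by
    intro k
    obtain ⟨t, ht⟩ := ha ⟨fderiv ℝ X1 w (EuclideanSpace.single k 1), ⟨_, rfl⟩⟩
    exact ⟨t, (congrArg Subtype.val ht).symm⟩
  obtain ⟨t, ht⟩ := key i
  obtain ⟨s, hs⟩ := key j
  rw [pd_sc b s1, pd_sc b s1, pd_sc v s1, pd_sc v s1, ht, hs]
  simp only [real_inner_smul_right]
  ring

end

/-- in every chart and at every point the differential of `f` or that of `g` has rank at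
most one -/
def PointwiseRankLeOne (n : ℕ) {m : ℕ} {M : Type*} [TopologicalSpace M] [ChartedSpace (E n) M]
    (f g : M → E m) : Prop :=
  ∀ e ∈ atlas (E n) M, ∀ z ∈ e.target,
    finrank ℝ (LinearMap.range (fderiv ℝ (f ∘ e.symm) z : E n →ₗ[ℝ] E m)) ≤ 1 ∨
    finrank ℝ (LinearMap.range (fderiv ℝ (g ∘ e.symm) z : E n →ₗ[ℝ] E m)) ≤ 1

section
variable {n m : ℕ} {M : Type*} [TopologicalSpace M] [ChartedSpace (E n) M]
  [IsManifold 𝓘(ℝ, E n) ∞ M] [ConnectedSpace M]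

theorem rank_spherical {x : M → E m} {c : E m} {x1 x2 : M → E m} {l1 l2 : ℝ}
    (h : IsCMCNonNullTwoType (n := n) x c x1 x2 l1 l2) (hp : PointwiseRankLeOne n x1 x2) :
    ∃ r : ℝ, 0 < r ∧ ∀ p, dist (x p) c = r := by
  obtain ⟨N0, hN⟩ := exists_LD (n_ne_zero h) h
  refine spherical_of_rad h fun e he z hz => rad_const_mixed (hN e he) (fun w hw => ?_) z hz
  rcases hp e he w hw with h1 | h1
  · exact Or.inl (R1_of_finrank ((hN e he).s1 w hw) h1)
  · exact Or.inr (R1_of_finrank ((hN e he).s2 w hw) h1)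

theorem main_spherical {x : M → E m} {c : E m} {x1 x2 : M → E m} {l1 l2 : ℝ}
    (h : IsCMCNonNullTwoType (n := n) x c x1 x2 l1 l2)
    (hp : finrank ℝ (spanOf x1) ≤ 2 ∨ finrank ℝ (spanOf x2) ≤ 2 ∨ PointwiseRankLeOne n x1 x2) :
    ∃ r : ℝ, 0 < r ∧ ∀ p, dist (x p) c = r := by
  rcases hp with hp | hp | hp
  · exact planar_spherical h hp
  · exact planar_spherical (cmc_symm h) hp
  · exact rank_spherical h hp

end

end Pool.Agent.PLC
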